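import Pool.Agent.Lib.MP_7ed9c3_nt.Few.Spec

/-!
PROJECT PZ, module Few/Chn (helper2): a chain of discs, by induction.
-/

set_option autoImplicit false

namespace MP7ed9c3.Few

open Metric

private theorem Chn_mem {w s : ℂ} {R : ℝ} {K : ℕ} (hR : 0 < R)
    (hs : s ∈ ball (w - (((K + 1 : ℕ) : ℝ) * (R / 8) : ℝ)) (R / 4)) :
    s ∈ ball (w - ((K : ℝ) * (R / 8) : ℝ)) (R / 2) := by
  rw [mem_ball] at hs ⊢
  have h1 : dist (w - (((K + 1 : ℕ) : ℝ) * (R / 8) : ℝ)) (w - ((K : ℝ) * (R / 8) : ℝ)) = R / 8 := by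
    rw [dist_eq_norm]
    have h2 : (w - (((K + 1 : ℕ) : ℝ) * (R / 8) : ℝ)) - (w - ((K : ℝ) * (R / 8) : ℝ)) =
        ((-(R / 8) : ℝ) : ℂ) := by
      push_cast
      ring
    rw [h2, Complex.norm_real, Real.norm_eq_abs, abs_neg, abs_of_pos (by linarith)]
  have h3 := dist_triangle s (w - (((K + 1 : ℕ) : ℝ) * (R / 8) : ℝ)) (w - ((K : ℝ) * (R / 8) : ℝ))
  rw [h1] at h3
  linarith

theorem rChn (h1 : S_Stp) : S_Chn := by
  intro R K hR
  induction K with
  | zero =>
    refine ⟨1, 1, le_rfl, one_pos, le_rfl, ?_⟩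
    intro w G A B hB hBA _ hs i hi s hs'
    have hi0 : i = 0 := by omega
    subst hi0
    have hw : w - (((0 : ℕ) : ℝ) * (R / 8) : ℝ) = w := by simp
    rw [hw] at hs'
    have hA : 0 < A := lt_of_lt_of_le hB hBA
    have h2 : 1 * A * (B / A) ^ (1 : ℝ) = B := by
      rw [Real.rpow_one, one_mul]
      field_simp
    rw [h2]
    exact hs s hs'
  | succ K ih =>
    obtain ⟨C, ω, hC, hω, hω1, ih⟩ := ih
    have hC0 : 0 < C := by linarith
    obtain ⟨C', ω', hC', hω', hω1', hst⟩ := h1 (R / 4) (R / 2) R C (by linarith) (by linarith)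
      (by linarith) hC0
    refine ⟨max C (C' * C ^ ω'), ω * ω', hC.trans (le_max_left _ _), mul_pos hω hω',
      mul_le_one₀ hω1 hω'.le hω1', ?_⟩
    intro w G A B hB hBA hG hs
    have hA : 0 < A := lt_of_lt_of_le hB hBA
    have hX0 : 0 < B / A := div_pos hB hA
    have hX1 : B / A ≤ 1 := (div_le_one hA).2 hBA
    have hXω : 0 < (B / A) ^ ω := Real.rpow_pos_of_pos hX0 _
    have hXω1 : (B / A) ^ ω ≤ 1 := Real.rpow_le_one hX0.le hX1 hω.le
    have hle : (B / A) ^ ω ≤ (B / A) ^ (ω * ω') :=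
      Real.rpow_le_rpow_of_exponent_ge hX0 hX1 (mul_le_of_le_one_right hω.le hω1')
    have hXX : 0 < (B / A) ^ (ω * ω') := Real.rpow_pos_of_pos hX0 _
    have key := ih w G A B hB hBA (fun i hi => hG i (by omega)) hs
    intro i hi s hs'
    rcases Nat.lt_or_ge K i with hlt | hge
    · have hiK : i = K + 1 := by omega
      subst hiK
      have h3 := hst (w - ((K : ℝ) * (R / 8) : ℝ)) G A (C * A * (B / A) ^ ω)
        (mul_pos (mul_pos hC0 hA) hXω) (mul_le_of_le_one_right (mul_pos hC0 hA).le hXω1)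
        (hG K (by omega)).1 (fun z hz => ((hG K (by omega)).2 z hz).1)
        (fun z hz => ((hG K (by omega)).2 z hz).2) (key K le_rfl) s (Chn_mem hR hs')
      refine h3.trans ?_
      have h4 : C * A * (B / A) ^ ω / A = C * (B / A) ^ ω := by
        field_simp
      have h5 : (C * A * (B / A) ^ ω / A) ^ ω' = C ^ ω' * (B / A) ^ (ω * ω') := by
        rw [h4, Real.mul_rpow hC0.le hXω.le, ← Real.rpow_mul hX0.le]
      rw [h5]
      have h6 : C' * A * (C ^ ω' * (B / A) ^ (ω * ω')) =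
          (C' * C ^ ω') * (A * (B / A) ^ (ω * ω')) := by ring
      rw [h6, mul_assoc (max C (C' * C ^ ω'))]
      exact mul_le_mul_of_nonneg_right (le_max_right _ _) (mul_pos hA hXX).le
    · refine (key i hge s hs').trans ?_
      rw [mul_assoc, mul_assoc]
      refine mul_le_mul (le_max_left _ _) (mul_le_mul_of_nonneg_left hle hA.le)
        (mul_pos hA hXω).le (hC0.le.trans (le_max_left _ _))

end MP7ed9c3.Few
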