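import Pool.Agent.Lib.MP_7ed9c3_nt.Few.Spec

/-! MP_7ed9c3_nt, project PZ, module Few/FPt: few points with the value `a` imply smallness. -/

set_option autoImplicit false

namespace MP7ed9c3.Few

open Metric

private theorem FPt_eq (s₁ t₀ h : ℝ) : Bx s₁ t₀ h =
    {s : ℂ | s₁ < s.re} ∩ ({s : ℂ | t₀ - h < s.im} ∩ {s : ℂ | s.im < t₀ + h}) := by
  ext s
  simp only [Bx, Set.mem_setOf_eq, Set.mem_inter_iff, abs_lt]
  constructor
  · rintro ⟨h1, h2, h3⟩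
    exact ⟨h1, by linarith, by linarith⟩
  · rintro ⟨h1, h2, h3⟩
    exact ⟨h1, by linarith, by linarith⟩

private theorem FPt_open (s₁ t₀ h : ℝ) : IsOpen (Bx s₁ t₀ h) := by
  rw [FPt_eq]
  refine IsOpen.inter ?_ (IsOpen.inter ?_ ?_)
  · exact isOpen_lt continuous_const Complex.continuous_re
  · exact isOpen_lt continuous_const Complex.continuous_im
  · exact isOpen_lt Complex.continuous_im continuous_const

private theorem FPt_conn (s₁ t₀ h : ℝ) : IsPreconnected (Bx s₁ t₀ h) := by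
  rw [FPt_eq]
  refine Convex.isPreconnected ?_
  refine Convex.inter ?_ (Convex.inter ?_ ?_)
  · exact convex_halfSpace_re_gt s₁
  · exact convex_halfSpace_im_gt (t₀ - h)
  · exact convex_halfSpace_im_lt (t₀ + h)

private theorem FPt_ord (U : Set ℂ) (f : ℂ → ℂ) (hU : IsOpen U) (hc : IsPreconnected U)
    (hf : DifferentiableOn ℂ f U) (hne : ∃ s ∈ U, f s ≠ 0) (z : ℂ) (hz : z ∈ U) (h0 : f z = 0) :
    1 ≤ analyticOrderNatAt f z := by
  have han : AnalyticOnNhd ℂ f U := hf.analyticOnNhd hU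
  have h1 : analyticOrderAt f z ≠ 0 := by
    intro h
    exact ((han z hz).analyticOrderAt_eq_zero.1 h) h0
  have h2 : analyticOrderAt f z ≠ ⊤ := by
    intro h
    rw [analyticOrderAt_eq_top] at h
    have h3 := han.eqOn_zero_of_preconnected_of_eventuallyEq_zero hc hz h
    obtain ⟨s, hs, hs0⟩ := hne
    exact hs0 (h3 hs)
  have h3 : analyticOrderNatAt f z ≠ 0 := by
    unfold analyticOrderNatAt
    intro h
    rcases ENat.toNat_eq_zero.1 h with h | h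
    · exact h1 h
    · exact h2 h
  omega

theorem rFPt (h1 : S_Few) (h2 : S_Fct) : S_FPt := by
  intro σ₁ h C₀ B a hσ hh hC₀ hB ha c₃ hc₃
  have hδ : 0 < ‖1 - a‖ := norm_pos_iff.2 (sub_ne_zero.2 (Ne.symm ha))
  obtain ⟨n, hn⟩ := exists_pow_lt_of_lt_one (show 0 < ‖1 - a‖ / (2 * B) by positivity)
    (show (1 / 2 : ℝ) < 1 by norm_num)
  obtain ⟨T, hT⟩ : ∃ T : ℝ, T = n + 7 / 2 := ⟨_, rfl⟩
  have hn0 : (0 : ℝ) ≤ n := Nat.cast_nonneg n
  have hT3 : 7 / 2 ≤ T := by linarith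
  have hpow : ∀ x : ℝ, T - 1 / 2 ≤ x → B * (2 : ℝ) ^ (-x) ≤ ‖1 - a‖ / 2 := by
    intro x hx
    have e1 : (2 : ℝ) ^ (-x) ≤ (1 / 2 : ℝ) ^ n := by
      have e2 : (2 : ℝ) ^ (-x) ≤ (2 : ℝ) ^ (-(n : ℝ)) :=
        Real.rpow_le_rpow_of_exponent_le (by norm_num) (by linarith)
      rw [Real.rpow_neg (by norm_num : (0 : ℝ) ≤ 2) (n : ℝ), Real.rpow_natCast] at e2
      rw [one_div, inv_pow]
      exact e2
    have e3 : B * (2 : ℝ) ^ (-x) ≤ B * (‖1 - a‖ / (2 * B)) :=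
      mul_le_mul_of_nonneg_left (le_trans e1 hn.le) hB.le
    have e4 : B * (‖1 - a‖ / (2 * B)) = ‖1 - a‖ / 2 := by
      field_simp
    linarith
  obtain ⟨ε, lam₀, hε, hlam₀, hF⟩ := h1 h σ₁ ((σ₁ + 1) / 2) T (C₀ + 1)
    (|Real.log (‖1 - a‖ / 2)| + |Real.log (3 * ‖1 - a‖ / 2)|) (c₃ / 2) hh (by linarith)
    (by linarith) (by linarith)
  refine ⟨ε, max lam₀ (max ‖a‖ (2 * ‖a‖ / c₃)), hε, ?_⟩
  intro lam t₀ F hlam hdF hbF hFB hS s hs1 hs2 hs3
  have hl1 : lam₀ ≤ lam := le_trans (le_max_left _ _) hlam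
  have hl2 : ‖a‖ ≤ lam := le_trans (le_trans (le_max_left _ _) (le_max_right _ _)) hlam
  have hl3 : 2 * ‖a‖ / c₃ ≤ lam := le_trans (le_trans (le_max_right _ _) (le_max_right _ _)) hlam
  have hlam1 : 1 ≤ lam := le_trans hlam₀ hl1
  have hbig : ∀ z ∈ Bx σ₁ t₀ h, T - 1 / 2 ≤ z.re →
      ‖1 - a‖ / 2 ≤ ‖F z - a‖ ∧ ‖F z - a‖ ≤ 3 * ‖1 - a‖ / 2 := by
    intro z hz hzT
    have e1 : ‖F z - 1‖ ≤ ‖1 - a‖ / 2 := le_trans (hFB z hz (by linarith)) (hpow z.re hzT)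
    have e2 : ‖1 - a‖ ≤ ‖F z - a‖ + ‖F z - 1‖ := by
      have : (1 - a : ℂ) = (F z - a) - (F z - 1) := by ring
      rw [this]
      exact norm_sub_le _ _
    have e3 : ‖F z - a‖ ≤ ‖F z - 1‖ + ‖1 - a‖ := by
      have : (F z - a : ℂ) = (F z - 1) + (1 - a) := by ring
      rw [this]
      exact norm_add_le _ _
    constructor <;> linarith
  have hop := FPt_open σ₁ t₀ h
  have hco := FPt_conn σ₁ t₀ h
  have hd1 : DifferentiableOn ℂ (fun z => F z - a) (Bx σ₁ t₀ h) := hdF.sub_const a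
  have hne : ∃ z ∈ Bx σ₁ t₀ h, (fun z => F z - a) z ≠ 0 := by
    have hz : (⟨T, t₀⟩ : ℂ) ∈ Bx σ₁ t₀ h := by
      refine ⟨?_, ?_⟩
      · show σ₁ < T
        linarith
      · show |t₀ - t₀| < h
        rw [sub_self, abs_zero]
        exact hh
    refine ⟨⟨T, t₀⟩, hz, ?_⟩
    intro h0
    have e1 := (hbig _ hz (by show T - 1 / 2 ≤ T; linarith)).1
    have e2 : ‖F ⟨T, t₀⟩ - a‖ = 0 := by
      have : F ⟨T, t₀⟩ - a = 0 := h0
      rw [this, norm_zero]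
    linarith
  have hfin : {z : ℂ | z ∈ Bx σ₁ t₀ h ∧ F z - a = 0}.Finite := by
    by_contra hinf
    obtain ⟨S, hS1, hS2⟩ := Set.Infinite.exists_subset_card_eq hinf (⌊ε * lam⌋₊ + 1)
    have e1 := hS S (fun ρ hρ => ⟨(hS1 hρ).1, sub_eq_zero.1 (hS1 hρ).2⟩)
    have e2 : (S.card : ℝ) ≤ ∑ ρ ∈ S, (analyticOrderNatAt (fun s => F s - a) ρ : ℝ) := by
      rw [Finset.card_eq_sum_ones, Nat.cast_sum]
      refine Finset.sum_le_sum (fun ρ hρ => ?_)
      have := FPt_ord (Bx σ₁ t₀ h) (fun z => F z - a) hop hco hd1 hne ρ (hS1 hρ).1 (hS1 hρ).2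
      exact_mod_cast this
    rw [hS2] at e2
    have e3 := Nat.lt_floor_add_one (ε * lam)
    push_cast at e2
    linarith
  obtain ⟨ρ, G, hρ, hG, hG0, hFG⟩ := h2 (Bx σ₁ t₀ h) (fun z => F z - a) hfin.toFinset hop hco hd1
    hne (fun z => by rw [Set.Finite.mem_toFinset]; rfl)
  have hρ2 : ∀ j, ρ j ∈ Bx σ₁ t₀ h ∧ F (ρ j) - a = 0 := by
    intro j
    have := hρ j
    rw [Set.Finite.mem_toFinset] at this
    exact this
  have key := hF lam hl1 t₀ _ ρ (fun z => F z - a) G ?_ hG hG0 hFG ?_ ?_ ?_ s hs1 (by linarith) hs3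
  · have e1 : ‖F s‖ ≤ ‖F s - a‖ + ‖a‖ := by
      have : F s = (F s - a) + a := by ring
      calc ‖F s‖ = ‖(F s - a) + a‖ := by rw [← this]
        _ ≤ _ := norm_add_le _ _
    have e2 : ‖F s - a‖ ≤ Real.exp (c₃ / 2 * lam) := key
    have e3 : Real.exp (c₃ * lam) = Real.exp (c₃ / 2 * lam) * Real.exp (c₃ / 2 * lam) := by
      rw [← Real.exp_add]
      congr 1
      ring
    have e4 : 2 * ‖a‖ ≤ lam * c₃ := (div_le_iff₀ hc₃).1 hl3
    have e5 : c₃ / 2 * lam + 1 ≤ Real.exp (c₃ / 2 * lam) := Real.add_one_le_exp _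
    have e6 : 0 ≤ c₃ / 2 * lam := by positivity
    have e7 : 1 ≤ Real.exp (c₃ / 2 * lam) := Real.one_le_exp e6
    have e8 : Real.exp (c₃ / 2 * lam) + ‖a‖ ≤ Real.exp (c₃ * lam) := by
      rw [e3]
      nlinarith
    linarith
  · have e1 := hS hfin.toFinset (fun z hz => by
      rw [Set.Finite.mem_toFinset] at hz
      exact ⟨hz.1, sub_eq_zero.1 hz.2⟩)
    rw [Nat.cast_sum]
    exact e1
  · intro j
    refine ⟨(hρ2 j).1, ?_⟩
    by_contra hlt
    push Not at hlt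
    have e1 := (hbig _ (hρ2 j).1 hlt.le).1
    rw [(hρ2 j).2, norm_zero] at e1
    linarith
  · intro z hz
    have e1 : ‖F z - a‖ ≤ ‖F z‖ + ‖a‖ := norm_sub_le _ _
    have e2 := hbF z hz
    have e3 : Real.exp ((C₀ + 1) * lam) = Real.exp (C₀ * lam) * Real.exp lam := by
      rw [← Real.exp_add]
      congr 1
      ring
    have e5 : lam + 1 ≤ Real.exp lam := Real.add_one_le_exp _
    have e6 : 0 ≤ C₀ * lam := by positivity
    have e7 : 1 ≤ Real.exp (C₀ * lam) := Real.one_le_exp e6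
    show ‖F z - a‖ ≤ Real.exp ((C₀ + 1) * lam)
    rw [e3]
    nlinarith
  · intro z hz hzT
    obtain ⟨e1, e2⟩ := hbig z hz (by linarith)
    have e3 : Real.log (‖1 - a‖ / 2) ≤ Real.log ‖F z - a‖ := Real.log_le_log (by positivity) e1
    have e4 : Real.log ‖F z - a‖ ≤ Real.log (3 * ‖1 - a‖ / 2) :=
      Real.log_le_log (by linarith) e2
    show |Real.log ‖F z - a‖| ≤ _
    rw [abs_le]
    constructor
    · have := neg_abs_le (Real.log (‖1 - a‖ / 2))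
      have := abs_nonneg (Real.log (3 * ‖1 - a‖ / 2))
      linarith
    · have := le_abs_self (Real.log (3 * ‖1 - a‖ / 2))
      have := abs_nonneg (Real.log (‖1 - a‖ / 2))
      linarith

end MP7ed9c3.Few
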