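import Pool.Agent.Lib.MP_7ed9c3_nt.Few.Spec

/-!
# MP_7ed9c3_nt, project PZ, Step 1: Fct, dividing out the zeros on an open connected set
-/

set_option autoImplicit false

namespace MP7ed9c3.Few

open Metric Complex Filter Topology

/-- the orders are finite -/
private theorem Fct_order {U : Set ℂ} (hU : IsOpen U) (hc : IsPreconnected U) {f : ℂ → ℂ}
    (hf : DifferentiableOn ℂ f U) {z₀ : ℂ} (hz₀ : z₀ ∈ U) (h₀ : f z₀ ≠ 0) {z : ℂ} (hz : z ∈ U) :
    analyticOrderAt f z ≠ ⊤ := by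
  intro h
  rw [analyticOrderAt_eq_top] at h
  have ha : AnalyticOnNhd ℂ f U := hf.analyticOnNhd hU
  have := ha.eqOn_zero_of_preconnected_of_frequently_eq_zero hc hz
    (h.filter_mono nhdsWithin_le_nhds).frequently
  exact h₀ (this hz₀)

/-- dividing out one zero -/
private theorem Fct_one {U : Set ℂ} (hU : IsOpen U) (hc : IsPreconnected U) {f : ℂ → ℂ}
    (hf : DifferentiableOn ℂ f U) {z₀ : ℂ} (hz₀ : z₀ ∈ U) (h₀ : f z₀ ≠ 0) {ρ : ℂ} (hρU : ρ ∈ U) :
    ∃ f₁ : ℂ → ℂ, DifferentiableOn ℂ f₁ U ∧ f₁ ρ ≠ 0 ∧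
      ∀ z, f z = (z - ρ) ^ analyticOrderNatAt f ρ * f₁ z := by
  have ha : AnalyticOnNhd ℂ f U := hf.analyticOnNhd hU
  obtain ⟨g, hg, hg0, hfg⟩ := (ha ρ hρU).analyticOrderAt_ne_top.1 (Fct_order hU hc hf hz₀ h₀ hρU)
  set m := analyticOrderNatAt f ρ with hm
  classical
  set f₁ : ℂ → ℂ := Function.update (fun z => f z / (z - ρ) ^ m) ρ (g ρ) with hf₁
  have hne : ∀ z, z ≠ ρ → f₁ z = f z / (z - ρ) ^ m := fun z hz => by
    rw [hf₁, Function.update_of_ne hz]
  have hρ : f₁ ρ = g ρ := by rw [hf₁, Function.update_self]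
  have heq : f₁ =ᶠ[𝓝 ρ] g := by
    filter_upwards [hfg] with z hz
    by_cases h : z = ρ
    · rw [h, hρ]
    · rw [hne z h, hz, smul_eq_mul, mul_div_assoc, mul_comm, div_mul_cancel₀]
      exact pow_ne_zero _ (sub_ne_zero.mpr h)
  refine ⟨f₁, ?_, by rwa [hρ], ?_⟩
  · intro z hzU
    apply DifferentiableAt.differentiableWithinAt
    by_cases h : z = ρ
    · rw [h]
      exact (hg.differentiableAt).congr_of_eventuallyEq heq
    · have h1 : DifferentiableAt ℂ (fun z => f z / (z - ρ) ^ m) z := by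
        apply DifferentiableAt.div ((hf z hzU).differentiableAt (hU.mem_nhds hzU))
        · fun_prop
        · exact pow_ne_zero _ (sub_ne_zero.mpr h)
      apply h1.congr_of_eventuallyEq
      filter_upwards [isOpen_ne.mem_nhds h] with w hw
      exact hne w hw
  · intro z
    by_cases h : z = ρ
    · rw [h]
      have h1 : f ρ = (ρ - ρ) ^ m • g ρ := hfg.self_of_nhds
      rw [h1, hρ, smul_eq_mul]
    · rw [hne z h, mul_div_cancel₀]
      exact pow_ne_zero _ (sub_ne_zero.mpr h)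

/-- dividing out finitely many points -/
private theorem Fct_many {U : Set ℂ} (hU : IsOpen U) (hc : IsPreconnected U) {f : ℂ → ℂ}
    (hf : DifferentiableOn ℂ f U) {z₀ : ℂ} (hz₀ : z₀ ∈ U) (h₀ : f z₀ ≠ 0) (Z : Finset ℂ)
    (hZ : ∀ z ∈ Z, z ∈ U) :
    ∃ G : ℂ → ℂ, DifferentiableOn ℂ G U ∧ (∀ ρ ∈ Z, G ρ ≠ 0) ∧
      ∀ z, f z = (∏ ρ ∈ Z, (z - ρ) ^ analyticOrderNatAt f ρ) * G z := by
  classical
  induction Z using Finset.induction_on with
  | empty => exact ⟨f, hf, by simp, by simp⟩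
  | insert ρ Z hρ ih =>
    obtain ⟨G, hG, hG0, hfG⟩ := ih fun z hz => hZ z (Finset.mem_insert_of_mem hz)
    have hρU : ρ ∈ U := hZ ρ (Finset.mem_insert_self _ _)
    have hGz : G z₀ ≠ 0 := by
      intro h
      apply h₀
      rw [hfG, h, mul_zero]
    obtain ⟨G₁, hG₁, hG₁0, hGG⟩ := Fct_one hU hc hG hz₀ hGz hρU
    set P : ℂ → ℂ := fun z => ∏ ρ ∈ Z, (z - ρ) ^ analyticOrderNatAt f ρ with hP
    have hPd : Differentiable ℂ P := by
      rw [hP]
      fun_prop
    have hPρ : P ρ ≠ 0 := by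
      rw [hP]
      simp only
      rw [Finset.prod_ne_zero_iff]
      intro σ hσ
      apply pow_ne_zero
      rw [sub_ne_zero]
      rintro rfl
      exact hρ hσ
    have hord : analyticOrderNatAt G ρ = analyticOrderNatAt f ρ := by
      have h1 : f = P * G := by
        funext z
        rw [hfG z]
        rfl
      have h2 : analyticOrderAt P ρ = 0 := (hPd.analyticAt ρ).analyticOrderAt_eq_zero.2 hPρ
      have h3 : analyticOrderAt f ρ = analyticOrderAt G ρ := by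
        rw [h1, analyticOrderAt_mul (hPd.analyticAt ρ) (hG.analyticOnNhd hU ρ hρU), h2, zero_add]
      rw [analyticOrderNatAt, analyticOrderNatAt, h3]
    refine ⟨G₁, hG₁, ?_, ?_⟩
    · intro σ hσ
      rw [Finset.mem_insert] at hσ
      rcases hσ with rfl | hσ
      · exact hG₁0
      · intro h
        apply hG0 σ hσ
        rw [hGG, h, mul_zero]
    · intro z
      rw [Finset.prod_insert hρ, hfG z, hGG z, hord]
      ring

/-- listing the zeros with multiplicity -/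
private theorem Fct_list (Z : Finset ℂ) (m : ℂ → ℕ) :
    ∃ ρ : Fin (∑ z ∈ Z, m z) → ℂ, (∀ j, ρ j ∈ Z) ∧
      ∀ s : ℂ, ∏ j, (s - ρ j) = ∏ z ∈ Z, (s - z) ^ m z := by
  classical
  have hcard : Fintype.card (Σ z : Z, Fin (m z)) = ∑ z ∈ Z, m z := by
    rw [Fintype.card_sigma]
    simp only [Fintype.card_fin]
    exact Finset.sum_coe_sort Z m
  have e : Fin (∑ z ∈ Z, m z) ≃ Σ z : Z, Fin (m z) := (Fintype.equivFinOfCardEq hcard).symm
  refine ⟨fun j => ((e j).1 : ℂ), fun j => (e j).1.2, fun s => ?_⟩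
  rw [Equiv.prod_comp e (fun x : (Σ z : Z, Fin (m z)) => s - (x.1 : ℂ)), Fintype.prod_sigma]
  simp only [Finset.prod_const, Finset.card_univ, Fintype.card_fin]
  exact Finset.prod_coe_sort Z (fun z => (s - z) ^ m z)

theorem rFct : S_Fct := by
  intro U F Z hU hc hF hne hZ
  obtain ⟨z₀, hz₀, h₀⟩ := hne
  obtain ⟨G, hG, hG0, hFG⟩ := Fct_many hU hc hF hz₀ h₀ Z fun z hz => ((hZ z).1 hz).1
  obtain ⟨ρ, hρ, hprod⟩ := Fct_list Z (analyticOrderNatAt F)
  refine ⟨ρ, G, hρ, hG, ?_, ?_⟩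
  · intro s hs
    by_cases h : F s = 0
    · exact hG0 s ((hZ s).2 ⟨hs, h⟩)
    · intro h'
      apply h
      rw [hFG s, h', mul_zero]
  · intro s _
    rw [hprod s, hFG s, mul_comm]

end MP7ed9c3.Few
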