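import Pool.Agent.Lib.MP_7ed9c3_nt.Few.Spec

/-!
# MP_7ed9c3_nt, project PZ, module Few: few zeros imply that the function is small (helper7)
-/

set_option autoImplicit false

namespace MP7ed9c3.Few

open Metric

private lemma Few_norm_le {s ρ : ℂ} {a b : ℝ} (h1 : |s.re - ρ.re| ≤ a) (h2 : |s.im - ρ.im| ≤ b) :
    ‖s - ρ‖ ≤ a + b := by
  have h := Complex.norm_le_abs_re_add_abs_im (s - ρ)
  rw [Complex.sub_re, Complex.sub_im] at h
  linarith

private lemma Few_ball {z w : ℂ} {r : ℝ} (hz : z ∈ ball w r) :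
    |z.re - w.re| < r ∧ |z.im - w.im| < r := by
  rw [mem_ball, Complex.dist_eq] at hz
  constructor
  · have h := Complex.abs_re_le_norm (z - w)
    rw [Complex.sub_re] at h
    linarith
  · have h := Complex.abs_im_le_norm (z - w)
    rw [Complex.sub_im] at h
    linarith

private lemma Few_box {h s₁ s₂ T R t₀ y : ℝ} {K i : ℕ} (hR : 0 < R) (hRh : R ≤ h / 5)
    (hRs : R ≤ (s₂ - s₁) / 4) (hK : (K : ℝ) < 8 * (T + R - s₂) / R + 1) (hi : i ≤ K)
    (hy : |y - t₀| ≤ h / 2) :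
    ball ((⟨T + R, y⟩ : ℂ) - ((i * (R / 8) : ℝ) : ℂ)) (2 * R) ⊆ Bx s₁ t₀ h := by
  intro z hz
  obtain ⟨h1, h2⟩ := Few_ball hz
  have hre : ((⟨T + R, y⟩ : ℂ) - ((i * (R / 8) : ℝ) : ℂ)).re = T + R - i * (R / 8) := by
    rw [Complex.sub_re, Complex.ofReal_re]
  have him : ((⟨T + R, y⟩ : ℂ) - ((i * (R / 8) : ℝ) : ℂ)).im = y := by
    rw [Complex.sub_im, Complex.ofReal_im, sub_zero]
  rw [hre] at h1
  rw [him] at h2
  have hiK : (i : ℝ) ≤ K := by exact_mod_cast hi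
  have h3 : (i : ℝ) * (R / 8) ≤ T + R - s₂ + R / 8 := by
    calc (i : ℝ) * (R / 8) ≤ (8 * (T + R - s₂) / R + 1) * (R / 8) :=
          mul_le_mul_of_nonneg_right (by linarith) (by positivity)
      _ = T + R - s₂ + R / 8 := by field_simp
  have h4 := abs_lt.1 h1
  have h5 := abs_lt.1 h2
  have h6 := abs_le.1 hy
  exact ⟨by linarith [h4.1], abs_lt.2 ⟨by linarith [h5.1, h6.1], by linarith [h5.2, h6.2]⟩⟩

theorem rFew (hD : S_Dsk) (hCh : S_Chn) : S_Few := by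
  intro h s₁ s₂ T C₀ C₁ c₃ hh hs hT hc
  obtain ⟨R, hR, hRh, hRs, hR1⟩ : ∃ R : ℝ, 0 < R ∧ R ≤ h / 5 ∧ R ≤ (s₂ - s₁) / 4 ∧ R ≤ 1 :=
    ⟨min (h / 5) (min ((s₂ - s₁) / 4) 1), lt_min (by positivity) (lt_min (by linarith) one_pos),
      min_le_left _ _, (min_le_right _ _).trans (min_le_left _ _),
      (min_le_right _ _).trans (min_le_right _ _)⟩
  obtain ⟨K, hK1, hK2⟩ : ∃ K : ℕ, 8 * (T + R - s₂) / R ≤ K ∧
      (K : ℝ) < 8 * (T + R - s₂) / R + 1 :=
    ⟨⌈8 * (T + R - s₂) / R⌉₊, Nat.le_ceil _,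
      Nat.ceil_lt_add_one (div_nonneg (by linarith) hR.le)⟩
  obtain ⟨C, ω, hC, hω, hω1, hch⟩ := hCh R K hR
  obtain ⟨D, hDdef⟩ : ∃ D : ℝ, D = Real.log (2 + |T| + |s₁| + 2 * h) := ⟨_, rfl⟩
  have hX : 2 < 2 + |T| + |s₁| + 2 * h := by
    have := abs_nonneg T
    have := abs_nonneg s₁
    linarith
  have hexpD : Real.exp D = 2 + |T| + |s₁| + 2 * h := by
    rw [hDdef, Real.exp_log (by linarith)]
  have hD0 : 0 < D := by
    rw [hDdef]
    exact Real.log_pos (by linarith)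
  obtain ⟨L, hLdef⟩ : ∃ L : ℝ, L = Real.log (4 / R) := ⟨_, rfl⟩
  have hL0 : 0 < L := by
    rw [hLdef]
    exact Real.log_pos (by rw [lt_div_iff₀ hR]; linarith)
  obtain ⟨A₀, hA₀⟩ : ∃ A₀ : ℝ, A₀ = |C₀| + |C₁| + 2 := ⟨_, rfl⟩
  have hA₀pos : 0 < A₀ := by
    have := abs_nonneg C₀
    have := abs_nonneg C₁
    rw [hA₀]
    linarith
  have hC0 : 0 < C := by linarith
  have hq : 0 < c₃ / (2 * C * A₀) := by positivity
  obtain ⟨η, hη, hηω⟩ : ∃ η : ℝ, 0 < η ∧ η ^ ω = c₃ / (2 * C * A₀) :=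
    ⟨(c₃ / (2 * C * A₀)) ^ (1 / ω), Real.rpow_pos_of_pos hq _, by
      rw [← Real.rpow_mul hq.le, one_div, inv_mul_cancel₀ hω.ne', Real.rpow_one]⟩
  obtain ⟨m, hm, hm1, hm2, hm3⟩ : ∃ m : ℝ, 0 < m ∧ m ≤ 1 ∧ m ≤ c₃ / 2 ∧ m ≤ η / 2 :=
    ⟨min 1 (min (c₃ / 2) (η / 2)), lt_min one_pos (lt_min (by positivity) (by positivity)),
      min_le_left _ _, (min_le_right _ _).trans (min_le_left _ _),
      (min_le_right _ _).trans (min_le_right _ _)⟩
  obtain ⟨ε, hε, hεL, hεD⟩ : ∃ ε : ℝ, 0 < ε ∧ ε * L ≤ 1 ∧ ε * D ≤ m := by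
    refine ⟨m / (L + D), by positivity, ?_, ?_⟩
    · rw [div_mul_eq_mul_div, div_le_one (by positivity)]
      have h1 : m * L ≤ 1 * L := mul_le_mul_of_nonneg_right hm1 hL0.le
      linarith
    · rw [div_mul_eq_mul_div, div_le_iff₀ (by positivity)]
      exact mul_le_mul_of_nonneg_left (by linarith) hm.le
  refine ⟨ε, max 1 (2 * (|C₁| + 1) / η), hε, le_max_left _ _, ?_⟩
  intro lam hlam t₀ N ρ F G hN hG hG0 hFG hρ hF hlog s hs2 hsT hst
  have hlam1 : 1 ≤ lam := (le_max_left _ _).trans hlam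
  have hlam2 : 2 * (|C₁| + 1) / η ≤ lam := (le_max_right _ _).trans hlam
  have hlam0 : 0 < lam := by linarith
  obtain ⟨w, hw⟩ : ∃ w : ℂ, w = ⟨T + R, s.im⟩ := ⟨_, rfl⟩
  have hwre : w.re = T + R := by rw [hw]
  have hwim : w.im = s.im := by rw [hw]
  have hbox : ∀ i ≤ K, ball (w - ((i * (R / 8) : ℝ) : ℂ)) (2 * R) ⊆ Bx s₁ t₀ h := by
    intro i hi
    rw [hw]
    exact Few_box hR hRh hRs hK2 hi hst
  have hC0' := abs_nonneg C₀
  have hC1' := abs_nonneg C₁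
  have hND : (N : ℝ) * D ≤ (ε * D) * lam := by
    calc (N : ℝ) * D ≤ (ε * lam) * D := mul_le_mul_of_nonneg_right hN hD0.le
      _ = (ε * D) * lam := by ring
  obtain ⟨A, hA⟩ : ∃ A : ℝ, A = (|C₀| + 1) * lam + |C₁| + 1 := ⟨_, rfl⟩
  obtain ⟨B, hBd⟩ : ∃ B : ℝ, B = |C₁| + 1 + (ε * D) * lam := ⟨_, rfl⟩
  have hB : 0 < B := by
    rw [hBd]
    positivity
  have hCl0 : 0 ≤ |C₀| * lam := mul_nonneg hC0' hlam0.le
  have hlamA : lam ≤ A := by
    rw [hA, add_mul, one_mul]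
    linarith
  have hA0 : 0 < A := by linarith
  have hBA : B ≤ A := by
    have h1 : (ε * D) * lam ≤ 1 * lam := mul_le_mul_of_nonneg_right (hεD.trans hm1) hlam0.le
    rw [hA, hBd, add_mul (|C₀|), one_mul]
    rw [one_mul] at h1
    linarith
  have hAA : A ≤ A₀ * lam := by
    have h1 : |C₁| * 1 ≤ |C₁| * lam := mul_le_mul_of_nonneg_left hlam1 hC1'
    rw [mul_one] at h1
    have e : (|C₀| + |C₁| + 2) * lam = (|C₀| + 1) * lam + |C₁| * lam + lam := by ring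
    rw [hA, hA₀, e]
    linarith
  have hBη : B / A ≤ η := by
    rw [div_le_iff₀ hA0]
    have h1 : |C₁| + 1 ≤ η / 2 * lam := by
      rw [div_le_iff₀ hη] at hlam2
      linarith
    have h2 : (ε * D) * lam ≤ η / 2 * lam := mul_le_mul_of_nonneg_right (hεD.trans hm3) hlam0.le
    calc B ≤ η * lam := by rw [hBd]; linarith
      _ ≤ η * A := mul_le_mul_of_nonneg_left hlamA hη.le
  have hnorm : ∀ z ∈ Bx s₁ t₀ h, z.re ≤ T + 2 → ∀ j, ‖z - ρ j‖ ≤ Real.exp D := by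
    intro z hz hzT j
    rw [hexpD]
    obtain ⟨⟨h1, h2⟩, h3⟩ := hρ j
    obtain ⟨h4, h5⟩ := hz
    have a1 := le_abs_self T
    have a2 := neg_abs_le s₁
    have a3 := abs_nonneg T
    have a4 := abs_nonneg s₁
    have e1 : |z.re - (ρ j).re| ≤ 2 + |T| + |s₁| := by
      rw [abs_le]
      constructor <;> linarith
    have e2 : |z.im - (ρ j).im| ≤ 2 * h := by
      have b1 := abs_lt.1 h2
      have b2 := abs_lt.1 h5
      rw [abs_le]
      constructor <;> linarith [b1.1, b1.2, b2.1, b2.2]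
    have h6 := Few_norm_le e1 e2
    linarith
  have hpre : ∀ i ≤ K, DifferentiableOn ℂ G (ball (w - ((i * (R / 8) : ℝ) : ℂ)) R) ∧
      ∀ z ∈ ball (w - ((i * (R / 8) : ℝ) : ℂ)) R, G z ≠ 0 ∧ ‖G z‖ ≤ Real.exp A := by
    intro i hi
    have hsub := hbox i hi
    have hsub' : ball (w - ((i * (R / 8) : ℝ) : ℂ)) R ⊆
        ball (w - ((i * (R / 8) : ℝ) : ℂ)) (2 * R) := ball_subset_ball (by linarith)
    refine ⟨hG.mono (hsub'.trans hsub), fun z hz => ⟨hG0 z (hsub (hsub' hz)), ?_⟩⟩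
    have h0 := hD (w - ((i * (R / 8) : ℝ) : ℂ)) R (2 * R) (C₀ * lam) N ρ F G hR (by linarith)
      (hG.mono hsub) (fun s hs => hFG s (hsub hs)) (fun s hs => hF s (hsub hs)) z
      (ball_subset_closedBall hz)
    refine h0.trans ?_
    have e : 4 / (2 * R - R) = 4 / R := by ring_nf
    have e2 : (4 / R) ^ N = Real.exp (N * L) := by
      rw [mul_comm, Real.exp_mul, hLdef, Real.exp_log (by positivity), Real.rpow_natCast]
    rw [e, e2, ← Real.exp_add]
    apply Real.exp_le_exp.2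
    have h1 : (N : ℝ) * L ≤ lam := by
      calc (N : ℝ) * L ≤ (ε * lam) * L := mul_le_mul_of_nonneg_right hN hL0.le
        _ = (ε * L) * lam := by ring
        _ ≤ 1 * lam := mul_le_mul_of_nonneg_right hεL hlam0.le
        _ = lam := one_mul _
    have h2 : C₀ * lam ≤ |C₀| * lam := mul_le_mul_of_nonneg_right (le_abs_self _) hlam0.le
    rw [hA]
    linarith
  have hstart : ∀ z ∈ ball w (R / 4), |Real.log ‖G z‖| ≤ B := by
    intro z hz
    obtain ⟨hb1, -⟩ := Few_ball hz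
    rw [hwre] at hb1
    have h1 := abs_lt.1 hb1
    have hzB : z ∈ Bx s₁ t₀ h := by
      apply hbox 0 (Nat.zero_le _)
      have e : w - ((((0 : ℕ) : ℝ) * (R / 8) : ℝ) : ℂ) = w := by simp
      rw [e]
      exact ball_subset_ball (by linarith) hz
    have hzT : T ≤ z.re := by linarith [h1.1]
    have hF1 := hlog z hzB hzT
    have hpos : ∀ j, 1 / 2 ≤ ‖z - ρ j‖ := by
      intro j
      have h2 := Complex.re_le_norm (z - ρ j)
      rw [Complex.sub_re] at h2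
      have h3 := (hρ j).2
      linarith
    have hpos' : ∀ j, 0 < ‖z - ρ j‖ := fun j => by linarith [hpos j]
    have hle : ∀ j, |Real.log ‖z - ρ j‖| ≤ D := by
      intro j
      have h2 := hpos j
      have h3 := hnorm z hzB (by linarith [h1.2]) j
      rw [abs_le]
      constructor
      · rw [← Real.log_exp (-D)]
        apply Real.log_le_log (Real.exp_pos _)
        rw [Real.exp_neg, hexpD]
        refine le_trans ?_ h2
        rw [one_div]
        exact inv_anti₀ (by norm_num) hX.le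
      · rw [← Real.log_exp D]
        exact Real.log_le_log (hpos' j) h3
    have hlogF : Real.log ‖F z‖ = Real.log ‖G z‖ + ∑ j, Real.log ‖z - ρ j‖ := by
      rw [hFG z hzB, norm_mul, norm_prod, Real.log_mul (norm_ne_zero_iff.2 (hG0 z hzB))
        (Finset.prod_ne_zero_iff.2 fun j _ => (hpos' j).ne'),
        Real.log_prod (fun j _ => (hpos' j).ne')]
    have hsum : |∑ j, Real.log ‖z - ρ j‖| ≤ N * D := by
      calc |∑ j, Real.log ‖z - ρ j‖| ≤ ∑ j, |Real.log ‖z - ρ j‖| :=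
            Finset.abs_sum_le_sum_abs _ _
        _ ≤ ∑ _j : Fin N, D := Finset.sum_le_sum fun j _ => hle j
        _ = N * D := by simp
    have e : Real.log ‖G z‖ = Real.log ‖F z‖ - ∑ j, Real.log ‖z - ρ j‖ := by linarith
    rw [e]
    have h4 := le_abs_self C₁
    have h5 := abs_sub (Real.log ‖F z‖) (∑ j, Real.log ‖z - ρ j‖)
    rw [hBd]
    linarith
  have hres := hch w G A B hB hBA hpre hstart
  obtain ⟨x, hx⟩ : ∃ x : ℝ, x = 8 * (T + R - s.re) / R := ⟨_, rfl⟩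
  have hx0 : 0 ≤ x := by
    rw [hx]
    exact div_nonneg (by linarith) hR.le
  have hxK : x ≤ K := by
    refine le_trans ?_ hK1
    rw [hx]
    exact div_le_div_of_nonneg_right (by linarith) hR.le
  have hi : ⌊x⌋₊ ≤ K := Nat.floor_le_of_le hxK
  have hx3 : T + R - s.re = x * (R / 8) := by
    rw [hx]
    field_simp
  have hmem : s ∈ ball (w - ((⌊x⌋₊ * (R / 8) : ℝ) : ℂ)) (R / 4) := by
    rw [mem_ball, Complex.dist_eq]
    have e : s - (w - ((⌊x⌋₊ * (R / 8) : ℝ) : ℂ)) =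
        ((⌊x⌋₊ * (R / 8) - (T + R - s.re) : ℝ) : ℂ) := by
      apply Complex.ext
      · rw [Complex.sub_re, Complex.sub_re, Complex.ofReal_re, Complex.ofReal_re, hwre]
        ring
      · rw [Complex.sub_im, Complex.sub_im, Complex.ofReal_im, Complex.ofReal_im, hwim]
        ring
    rw [e, Complex.norm_real, Real.norm_eq_abs, hx3]
    have h1 := Nat.floor_le hx0
    have h2 := Nat.lt_floor_add_one x
    have e3 : (⌊x⌋₊ : ℝ) * (R / 8) - x * (R / 8) = -((x - ⌊x⌋₊) * (R / 8)) := by ring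
    have h3 : (x - ⌊x⌋₊) * (R / 8) ≤ 1 * (R / 8) :=
      mul_le_mul_of_nonneg_right (by linarith) (by positivity)
    have h4 : 0 ≤ (x - ⌊x⌋₊) * (R / 8) := mul_nonneg (by linarith) (by positivity)
    rw [e3, abs_neg, abs_of_nonneg h4]
    linarith
  have hG1 := hres _ hi s hmem
  have hsB : s ∈ Bx s₁ t₀ h := ⟨by linarith, by linarith⟩
  have hpow : (B / A) ^ ω ≤ c₃ / (2 * C * A₀) := by
    rw [← hηω]
    exact Real.rpow_le_rpow (by positivity) hBη hω.le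
  have hmain : C * A * (B / A) ^ ω ≤ c₃ / 2 * lam := by
    have hp0 : 0 ≤ (B / A) ^ ω := Real.rpow_nonneg (by positivity) _
    calc C * A * (B / A) ^ ω ≤ C * (A₀ * lam) * (c₃ / (2 * C * A₀)) := by gcongr
      _ = c₃ / 2 * lam := by field_simp
  have hGs : ‖G s‖ ≤ Real.exp (c₃ / 2 * lam) := by
    have h1 : 0 < ‖G s‖ := norm_pos_iff.2 (hG0 s hsB)
    rw [← Real.exp_log h1]
    exact Real.exp_le_exp.2 (((le_abs_self _).trans hG1).trans hmain)
  have hprod : ∏ j, ‖s - ρ j‖ ≤ Real.exp (c₃ / 2 * lam) := by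
    calc ∏ j, ‖s - ρ j‖ ≤ ∏ _j : Fin N, Real.exp D :=
          Finset.prod_le_prod (fun j _ => norm_nonneg _) fun j _ =>
            hnorm s hsB (by linarith) j
      _ = Real.exp (N * D) := by
          rw [Finset.prod_const, Finset.card_univ, Fintype.card_fin, ← Real.exp_nat_mul]
      _ ≤ Real.exp (c₃ / 2 * lam) := by
          apply Real.exp_le_exp.2
          refine hND.trans ?_
          exact mul_le_mul_of_nonneg_right (hεD.trans hm2) hlam0.le
  rw [hFG s hsB, norm_mul, norm_prod]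
  calc ‖G s‖ * ∏ j, ‖s - ρ j‖ ≤ Real.exp (c₃ / 2 * lam) * Real.exp (c₃ / 2 * lam) :=
        mul_le_mul hGs hprod (Finset.prod_nonneg fun j _ => norm_nonneg _) (Real.exp_pos _).le
    _ = Real.exp (c₃ * lam) := by
        rw [← Real.exp_add]
        ring_nf

end MP7ed9c3.Few
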