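import Pool.Agent.Lib.MP_7ed9c3_nt.Few.Spec

/-!
# MP_7ed9c3_nt, project PZ, Few, module Stp: one step of the chain
-/

set_option autoImplicit false

namespace MP7ed9c3.Few

open Metric Complex

/-- Borel-Caratheodory on a ball with a bound at the centre -/
private theorem Stp_bc {w : ℂ} {R M b : ℝ} {g : ℂ → ℂ} (hR : 0 < R) (hM : 0 < M) (hb0 : 0 ≤ b)
    (hg : DifferentiableOn ℂ g (ball w R)) (hre : ∀ z ∈ ball w R, (g z).re ≤ M) (hb : ‖g w‖ ≤ b)
    {s : ℂ} {t : ℝ} (ht0 : 0 ≤ t) (ht : t < R) (hs : s ∈ closedBall w t) :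
    ‖g s‖ ≤ (2 * M * t + b * (R + t)) / (R - t) := by
  have hmap : ∀ z ∈ ball (0 : ℂ) R, w + z ∈ ball w R := by
    intro z hz
    rw [mem_ball, dist_zero_right] at hz
    rw [mem_ball, dist_eq_norm, add_sub_cancel_left]
    exact hz
  have hf : DifferentiableOn ℂ (fun z => g (w + z)) (ball 0 R) := by
    refine hg.comp ?_ hmap
    exact (differentiable_id.const_add w).differentiableOn
  have hz : ‖s - w‖ ≤ t := by
    rw [mem_closedBall, dist_eq_norm] at hs
    exact hs
  have hzR : s - w ∈ ball (0 : ℂ) R := by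
    rw [mem_ball, dist_zero_right]
    linarith
  have h1 := Complex.borelCaratheodory (f := fun z => g (w + z)) hM hf
    (fun z hz => hre _ (hmap z hz)) hR hzR
  simp only [add_zero, add_sub_cancel] at h1
  have h2 : 0 < R - t := by linarith
  have h3 : 0 ≤ ‖s - w‖ := norm_nonneg _
  have h4 : 0 ≤ ‖g w‖ := norm_nonneg _
  calc ‖g s‖ ≤ 2 * M * ‖s - w‖ / (R - ‖s - w‖) + ‖g w‖ * (R + ‖s - w‖) / (R - ‖s - w‖) := h1
    _ = (2 * M * ‖s - w‖ + ‖g w‖ * (R + ‖s - w‖)) / (R - ‖s - w‖) := by rw [add_div]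
    _ ≤ (2 * M * t + b * (R + t)) / (R - t) := by
        apply div_le_div₀
        · positivity
        · have := mul_le_mul hb (show R + ‖s - w‖ ≤ R + t by linarith) (by positivity) hb0
          nlinarith
        · exact h2
        · linarith

theorem rStp (h1 : S_Thr) : S_Stp := by
  intro r r' R D hr hrr hrR hD
  have hr' : 0 < r' := by linarith
  have hR : 0 < R := by linarith
  set r₂ : ℝ := (r' + R) / 2 with hr₂
  have hr₂1 : r' < r₂ := by linarith
  have hr₂2 : r₂ < R := by linarith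
  have hr₂0 : 0 < r₂ := by linarith
  set θ : ℝ := (Real.log r' - Real.log (r / 2)) / (Real.log r₂ - Real.log (r / 2)) with hθ
  have hl1 : Real.log (r / 2) < Real.log r' := Real.log_lt_log (by linarith) (by linarith)
  have hl2 : Real.log r' < Real.log r₂ := Real.log_lt_log hr' hr₂1
  have hθ0 : 0 < θ := div_pos (by linarith) (by linarith)
  have hθ1 : θ < 1 := by
    rw [hθ, div_lt_one (by linarith)]
    linarith
  set C₂ : ℝ := (2 * r₂ + D * (R + r₂)) / (R - r₂) with hC₂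
  have hC₂0 : 0 ≤ C₂ := div_nonneg (by positivity) (by linarith)
  set C₃ : ℝ := C₂ + 5 * D with hC₃
  have hC₃0 : 0 < C₃ := by positivity
  refine ⟨5 * (C₃ + 1), 1 - θ, by linarith, by linarith, by linarith, ?_⟩
  intro w G A B hB hBA hG hne hGA hGB s hs
  have hA : 0 < A := by
    by_contra hcon
    have := mul_nonpos_of_nonneg_of_nonpos hD.le (not_lt.1 hcon)
    linarith
  obtain ⟨g, hg, hgG⟩ := MP7ed9c3.Zs.logballz_exists hR hG hne
  have hw : w ∈ ball w R := mem_ball_self hR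
  have hre : ∀ z ∈ ball w R, (g z).re = Real.log ‖G z‖ := by
    intro z hz
    rw [← hgG z hz, Complex.norm_exp, Real.log_exp]
  set g₁ : ℂ → ℂ := fun z => g z - ((g w).im : ℂ) * I with hg₁
  have hg₁d : DifferentiableOn ℂ g₁ (ball w R) := hg.sub_const _
  have hg₁re : ∀ z ∈ ball w R, (g₁ z).re = Real.log ‖G z‖ := by
    intro z hz
    rw [← hre z hz, hg₁]
    simp
  have hg₁w : ‖g₁ w‖ ≤ B := by
    have h2 : g₁ w = ((g w).re : ℂ) := by
      rw [hg₁]
      apply Complex.ext <;> simp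
    rw [h2, Complex.norm_real, Real.norm_eq_abs, hre w hw]
    exact hGB w (mem_ball_self hr)
  have hsub : ball w r ⊆ ball w R := ball_subset_ball (by linarith)
  have hreA : ∀ z ∈ ball w R, (g₁ z).re ≤ A := by
    intro z hz
    rw [hg₁re z hz]
    rw [Real.log_le_iff_le_exp (norm_pos_iff.2 (hne z hz))]
    exact hGA z hz
  have hreB : ∀ z ∈ ball w r, (g₁ z).re ≤ B := by
    intro z hz
    rw [hg₁re z (hsub hz)]
    exact (abs_le.1 (hGB z hz)).2
  have hbig : ∀ z ∈ closedBall w r₂, ‖g₁ z‖ ≤ C₂ * A := by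
    intro z hz
    have h3 := Stp_bc hR hA hB.le hg₁d hreA hg₁w hr₂0.le hr₂2 hz
    refine h3.trans ?_
    rw [hC₂, div_mul_eq_mul_div]
    refine div_le_div_of_nonneg_right ?_ (by linarith)
    have h4 : B * (R + r₂) ≤ D * A * (R + r₂) := mul_le_mul_of_nonneg_right hBA (by linarith)
    nlinarith
  have hsmall : ∀ z ∈ closedBall w (r / 2), ‖g₁ z‖ ≤ 5 * B := by
    intro z hz
    have h3 := Stp_bc hr hB hB.le (hg₁d.mono hsub) hreB hg₁w (show 0 ≤ r / 2 by linarith)
      (by linarith) hz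
    refine h3.trans (le_of_eq ?_)
    field_simp
    ring
  have hbig' : ∀ z ∈ closedBall w r₂, ‖g₁ z‖ ≤ max (C₂ * A) (5 * B) := fun z hz =>
    (hbig z hz).trans (le_max_left _ _)
  have hthr := h1 w (r / 2) r' r₂ R (5 * B) (max (C₂ * A) (5 * B)) g₁ (by linarith) (by linarith)
    hr₂1 hr₂2 (by linarith) (le_max_right _ _) hg₁d hsmall hbig' s
    (ball_subset_closedBall hs)
  rw [← hθ] at hthr
  have hsR : s ∈ ball w R := (ball_subset_ball hrR.le) hs
  have hfin : 5 * B * (max (C₂ * A) (5 * B) / (5 * B)) ^ θ ≤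
      5 * (C₃ + 1) * A * (B / A) ^ (1 - θ) := by
    have h2 : max (C₂ * A) (5 * B) / (5 * B) ≤ (C₃ + 1) * (A / B) := by
      rw [div_le_iff₀ (by positivity)]
      have e : (C₃ + 1) * (A / B) * (5 * B) = 5 * (C₃ + 1) * A := by
        field_simp
      rw [e]
      refine max_le ?_ ?_
      · rw [hC₃]
        nlinarith [mul_pos hD hA, mul_nonneg hC₂0 hA.le]
      · rw [hC₃]
        nlinarith [mul_pos hD hA, mul_nonneg hC₂0 hA.le]
    have h0 : 0 ≤ max (C₂ * A) (5 * B) / (5 * B) :=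
      div_nonneg ((by positivity : (0 : ℝ) ≤ 5 * B).trans (le_max_right _ _)) (by positivity)
    have h3 : (max (C₂ * A) (5 * B) / (5 * B)) ^ θ ≤ (C₃ + 1) * (A / B) ^ θ := by
      calc (max (C₂ * A) (5 * B) / (5 * B)) ^ θ ≤ ((C₃ + 1) * (A / B)) ^ θ :=
            Real.rpow_le_rpow h0 h2 hθ0.le
        _ = (C₃ + 1) ^ θ * (A / B) ^ θ := Real.mul_rpow (by linarith) (by positivity)
        _ ≤ (C₃ + 1) ^ (1 : ℝ) * (A / B) ^ θ := by
            refine mul_le_mul_of_nonneg_right ?_ (by positivity)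
            exact Real.rpow_le_rpow_of_exponent_le (by linarith) hθ1.le
        _ = _ := by rw [Real.rpow_one]
    have h4 : B * (A / B) ^ θ = A * (B / A) ^ (1 - θ) := by
      rw [Real.rpow_sub (by positivity), Real.rpow_one, Real.div_rpow hA.le hB.le,
        Real.div_rpow hB.le hA.le]
      have hAθ : 0 < A ^ θ := Real.rpow_pos_of_pos hA _
      have hBθ : 0 < B ^ θ := Real.rpow_pos_of_pos hB _
      field_simp
    calc 5 * B * (max (C₂ * A) (5 * B) / (5 * B)) ^ θ ≤ 5 * B * ((C₃ + 1) * (A / B) ^ θ) :=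
          mul_le_mul_of_nonneg_left h3 (by positivity)
      _ = 5 * (C₃ + 1) * (B * (A / B) ^ θ) := by ring
      _ = _ := by
          rw [h4]
          ring
  calc |Real.log ‖G s‖| = |(g₁ s).re| := by rw [hg₁re s hsR]
    _ ≤ ‖g₁ s‖ := Complex.abs_re_le_norm _
    _ ≤ _ := hthr
    _ ≤ _ := hfin

end MP7ed9c3.Few
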