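import Pool.Agent.Lib.MP_7ed9c3_nt.Few.Spec

set_option autoImplicit false

/-!
# MP_7ed9c3_nt, project PZ, module Few/Thr: Hadamard's three circles theorem
-/

namespace MP7ed9c3.Few

open Metric

private theorem Thr_mem (w : ℂ) (r : ℝ) (hr : 0 < r) (z : ℂ) (hz : z.re ≤ Real.log r) :
    w + Complex.exp z ∈ closedBall w r := by
  rw [mem_closedBall, dist_eq_norm, add_sub_cancel_left, Complex.norm_exp]
  calc Real.exp z.re ≤ Real.exp (Real.log r) := Real.exp_le_exp.2 hz
    _ = r := Real.exp_log hr

private theorem Thr_interp (a b t : ℝ) (ha : 0 < a) (hab : a ≤ b) :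
    a ^ (1 - t) * b ^ t = a * (b / a) ^ t := by
  have hb : b = a * (b / a) := by
    field_simp
  have hba : 0 ≤ b / a := div_nonneg (ha.le.trans hab) ha.le
  calc a ^ (1 - t) * b ^ t = a ^ (1 - t) * (a * (b / a)) ^ t := by rw [← hb]
    _ = a ^ (1 - t) * (a ^ t * (b / a) ^ t) := by rw [Real.mul_rpow ha.le hba]
    _ = (a ^ (1 - t) * a ^ t) * (b / a) ^ t := by ring
    _ = a * (b / a) ^ t := by
        rw [← Real.rpow_add ha, sub_add_cancel, Real.rpow_one]

theorem rThr : S_Thr := by
  intro w r₀ r₁ r₂ r₃ a b g h0 h01 h12 h23 ha hab hg hga hgb s hs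
  have hr1 : 0 < r₁ := h0.trans h01
  have hr2 : 0 < r₂ := hr1.trans h12
  have hl01 : Real.log r₀ < Real.log r₁ := Real.log_lt_log h0 h01
  have hl12 : Real.log r₁ < Real.log r₂ := Real.log_lt_log hr1 h12
  have hθ0 : 0 ≤ (Real.log r₁ - Real.log r₀) / (Real.log r₂ - Real.log r₀) :=
    div_nonneg (by linarith) (by linarith)
  have hba : 1 ≤ b / a := (one_le_div ha).2 hab
  by_cases hsr : dist s w ≤ r₀
  · have h1 := hga s hsr
    have h2 : 1 ≤ (b / a) ^ ((Real.log r₁ - Real.log r₀) / (Real.log r₂ - Real.log r₀)) :=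
      Real.one_le_rpow hba hθ0
    calc ‖g s‖ ≤ a * 1 := by rw [mul_one]; exact h1
      _ ≤ _ := mul_le_mul_of_nonneg_left h2 ha.le
  · rw [not_le] at hsr
    have hd : 0 < dist s w := h0.trans hsr
    have hsw : s - w ≠ 0 := by
      rw [← norm_pos_iff, ← dist_eq_norm]
      exact hd
    have hzre : (Complex.log (s - w)).re = Real.log (dist s w) := by
      rw [Complex.log_re, dist_eq_norm]
    have hzexp : w + Complex.exp (Complex.log (s - w)) = s := by
      rw [Complex.exp_log hsw]
      ring
    have hlogd1 : Real.log r₀ < Real.log (dist s w) := Real.log_lt_log h0 hsr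
    have hlogd2 : Real.log (dist s w) ≤ Real.log r₁ := Real.log_le_log hd hs
    have hdiff : DiffContOnCl ℂ (fun z => g (w + Complex.exp z))
        (Complex.HadamardThreeLines.verticalStrip (Real.log r₀) (Real.log r₂)) := by
      apply DifferentiableOn.diffContOnCl
      have hcl : closure (Complex.HadamardThreeLines.verticalStrip (Real.log r₀) (Real.log r₂)) ⊆
          {z : ℂ | z.re ≤ Real.log r₂} := by
        apply closure_minimal
        · intro z hz
          exact hz.2.le
        · exact isClosed_le Complex.continuous_re continuous_const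
      intro z hz
      have h1 := Thr_mem w r₂ hr2 z (hcl hz)
      have h2 : w + Complex.exp z ∈ ball w r₃ := lt_of_le_of_lt h1 h23
      have h3 : DifferentiableAt ℂ g (w + Complex.exp z) :=
        (hg _ h2).differentiableAt (isOpen_ball.mem_nhds h2)
      have h4 : DifferentiableAt ℂ (fun z : ℂ => w + Complex.exp z) z :=
        (differentiableAt_const w).add Complex.differentiable_exp.differentiableAt
      exact (DifferentiableAt.comp z h3 h4).differentiableWithinAt
    have hbdd : BddAbove ((norm ∘ (fun z => g (w + Complex.exp z))) ''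
        Complex.HadamardThreeLines.verticalClosedStrip (Real.log r₀) (Real.log r₂)) := by
      refine ⟨b, ?_⟩
      rintro _ ⟨z, hz, rfl⟩
      exact hgb _ (Thr_mem w r₂ hr2 z hz.2)
    have key := Complex.HadamardThreeLines.norm_le_interp_of_mem_verticalClosedStrip'
      (f := fun z => g (w + Complex.exp z)) (z := Complex.log (s - w)) (a := a) (b := b)
      (hl01.trans hl12) ⟨by rw [hzre]; exact hlogd1.le, by rw [hzre]; linarith⟩ hdiff hbdd
      (by
        intro z hz
        exact hga _ (Thr_mem w r₀ h0 z (le_of_eq hz)))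
      (by
        intro z hz
        exact hgb _ (Thr_mem w r₂ hr2 z (le_of_eq hz)))
    simp only [hzexp] at key
    rw [Thr_interp a b _ ha hab, hzre] at key
    refine key.trans (mul_le_mul_of_nonneg_left ?_ ha.le)
    apply Real.rpow_le_rpow_of_exponent_le hba
    apply div_le_div_of_nonneg_right _ (by linarith)
    linarith

end MP7ed9c3.Few
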