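import Pool.Agent.Lib.MP_7ed9c3_nt.Few.Dsk
import Pool.Agent.Lib.MP_7ed9c3_nt.Few.Thr
import Pool.Agent.Lib.MP_7ed9c3_nt.Few.Stp
import Pool.Agent.Lib.MP_7ed9c3_nt.Few.Chn
import Pool.Agent.Lib.MP_7ed9c3_nt.Few.Few
import Pool.Agent.Lib.MP_7ed9c3_nt.Few.Fct
import Pool.Agent.Lib.MP_7ed9c3_nt.Few.FPt
import Pool.Agent.Lib.MP_7ed9c3_nt.Pz.Def

/-!
# MP_7ed9c3_nt, part A of project PZ: few points with the value `a`, complete
-/

set_option autoImplicit false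

namespace MP7ed9c3.Few

theorem fPt : S_FPt := rFPt (rFew rDsk (rChn (rStp rThr))) rFct

end MP7ed9c3.Few

namespace MP7ed9c3.Pz

/-- **A, few points with the value `a`**, closed. -/
theorem fewPoints : S_FewPoints := MP7ed9c3.Few.fPt

end MP7ed9c3.Pz
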