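import Pool.Agent.Lib.MP_7ed9c3_nt.Few.Spec

/-!
# MP_7ed9c3_nt, project PZ, module Dsk: dividing out the zeros on a disc
-/

set_option autoImplicit false

namespace MP7ed9c3.Few

open Metric

private theorem Dsk_prod_le {N : ℕ} (I : Finset (Fin N)) (ρ : Fin N → ℂ) (s : ℂ) (d : ℝ)
    (hd : 0 ≤ d) (h : ∀ j ∈ I, d ≤ ‖s - ρ j‖) : d ^ I.card ≤ ‖∏ j ∈ I, (s - ρ j)‖ := by
  rw [norm_prod, ← Finset.prod_const]
  exact Finset.prod_le_prod (fun _ _ => hd) h

theorem rDsk : S_Dsk := by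
  classical
  intro w R₁ R₂ A N ρ F G hR₁ hR hG hF hFA s hs
  set δ : ℝ := R₂ - R₁ with hδ
  have hδ0 : 0 < δ := by rw [hδ]; linarith
  set I : Finset (Fin N) := Finset.univ.filter (fun j => dist (ρ j) w ≤ R₁ + δ / 2) with hI
  set H : ℂ → ℂ := fun z => G z * ∏ j ∈ Iᶜ, (z - ρ j) with hH
  have hr0 : (0 : ℝ) < R₁ + 3 * δ / 4 := by positivity
  have hrR : R₁ + 3 * δ / 4 < R₂ := by rw [hδ]; linarith
  -- the factorization
  have hFH : ∀ z ∈ ball w R₂, F z = H z * ∏ j ∈ I, (z - ρ j) := by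
    intro z hz
    rw [hF z hz, hH]
    simp only
    rw [mul_assoc, Finset.prod_compl_mul_prod]
  -- the bound on the circle
  have hfr : ∀ z ∈ frontier (ball w (R₁ + 3 * δ / 4)), ‖H z‖ ≤ Real.exp A * (4 / δ) ^ I.card := by
    intro z hz
    rw [frontier_ball w hr0.ne', mem_sphere] at hz
    have hzR : z ∈ ball w R₂ := by
      rw [mem_ball, hz]
      exact hrR
    have h1 : (δ / 4) ^ I.card ≤ ‖∏ j ∈ I, (z - ρ j)‖ := by
      refine Dsk_prod_le I ρ z _ (by positivity) fun j hj => ?_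
      have h2 : dist (ρ j) w ≤ R₁ + δ / 2 := (Finset.mem_filter.1 hj).2
      have h3 : dist z w ≤ dist z (ρ j) + dist (ρ j) w := dist_triangle _ _ _
      rw [← dist_eq_norm]
      linarith
    have h2 : ‖H z‖ * ‖∏ j ∈ I, (z - ρ j)‖ ≤ Real.exp A := by
      rw [← norm_mul, ← hFH z hzR]
      exact hFA z hzR
    have h3 : ‖H z‖ * (δ / 4) ^ I.card ≤ Real.exp A :=
      (mul_le_mul_of_nonneg_left h1 (norm_nonneg _)).trans h2
    have h4 : (0 : ℝ) < (4 / δ) ^ I.card := by positivity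
    have h5 : (δ / 4) ^ I.card * (4 / δ) ^ I.card = 1 := by
      rw [← mul_pow, show δ / 4 * (4 / δ) = 1 by field_simp, one_pow]
    calc ‖H z‖ = ‖H z‖ * (δ / 4) ^ I.card * (4 / δ) ^ I.card := by rw [mul_assoc, h5, mul_one]
      _ ≤ Real.exp A * (4 / δ) ^ I.card := mul_le_mul_of_nonneg_right h3 h4.le
  -- the maximum principle
  have hdiff : DiffContOnCl ℂ H (ball w (R₁ + 3 * δ / 4)) := by
    refine DifferentiableOn.diffContOnCl ?_
    rw [closure_ball w hr0.ne']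
    have h1 : DifferentiableOn ℂ H (ball w R₂) := by
      refine hG.mul (Differentiable.differentiableOn ?_)
      fun_prop
    exact h1.mono (closedBall_subset_ball hrR)
  have hs1 : dist s w ≤ R₁ := mem_closedBall.1 hs
  have hHs : ‖H s‖ ≤ Real.exp A * (4 / δ) ^ I.card := by
    refine Complex.norm_le_of_forall_mem_frontier_norm_le isBounded_ball hdiff hfr ?_
    rw [closure_ball w hr0.ne', mem_closedBall]
    linarith
  -- the other zeros
  have h1 : (δ / 4) ^ (Iᶜ).card ≤ ‖∏ j ∈ Iᶜ, (s - ρ j)‖ := by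
    refine Dsk_prod_le _ ρ s _ (by positivity) fun j hj => ?_
    have h2 : R₁ + δ / 2 < dist (ρ j) w := by
      by_contra hcon
      rw [Finset.mem_compl, hI, Finset.mem_filter] at hj
      exact hj ⟨Finset.mem_univ j, not_lt.1 hcon⟩
    have h3 : dist (ρ j) w ≤ dist (ρ j) s + dist s w := dist_triangle _ _ _
    rw [← dist_eq_norm, dist_comm]
    linarith
  have h2 : ‖G s‖ * (δ / 4) ^ (Iᶜ).card ≤ ‖H s‖ := by
    rw [hH]
    simp only
    rw [norm_mul]
    exact mul_le_mul_of_nonneg_left h1 (norm_nonneg _)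
  have h5 : (δ / 4) ^ (Iᶜ).card * (4 / δ) ^ (Iᶜ).card = 1 := by
    rw [← mul_pow, show δ / 4 * (4 / δ) = 1 by field_simp, one_pow]
  have hcard : I.card + (Iᶜ).card = N := by
    rw [Finset.card_add_card_compl, Fintype.card_fin]
  calc ‖G s‖ = ‖G s‖ * (δ / 4) ^ (Iᶜ).card * (4 / δ) ^ (Iᶜ).card := by
        rw [mul_assoc, h5, mul_one]
    _ ≤ Real.exp A * (4 / δ) ^ I.card * (4 / δ) ^ (Iᶜ).card :=
        mul_le_mul_of_nonneg_right (h2.trans hHs) (by positivity)
    _ = Real.exp A * (4 / δ) ^ N := by rw [mul_assoc, ← pow_add, hcard]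

end MP7ed9c3.Few
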