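import Pool.Agent.Lib.MP_7ed9c3_nt.Few.Spec

/-! MP_7ed9c3_nt, project PZ, module Few/FPtU: few points with the value `a` imply smallness, with constants
which do not depend on `a` for `κ ≤ ‖1 - a‖`, `‖a‖ ≤ exp (c₃ lam / 4)`. -/

set_option autoImplicit false

namespace MP7ed9c3.Few

open Metric

/-- Few points with some value `a` imply smallness, uniformly in `a`. -/
def S_FPtU : Prop :=
  ∀ (σ₁ h C₀ B κ : ℝ), σ₁ < 1 → 0 < h → 0 < C₀ → 0 < B → 0 < κ → ∀ c₃ : ℝ, 0 < c₃ →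
  ∃ ε lam₀ : ℝ, 0 < ε ∧ ∀ (lam t₀ : ℝ) (F : ℂ → ℂ) (a : ℂ), lam₀ ≤ lam → κ ≤ ‖1 - a‖ →
    ‖a‖ ≤ Real.exp (c₃ / 4 * lam) →
    DifferentiableOn ℂ F (Bx σ₁ t₀ h) → (∀ s ∈ Bx σ₁ t₀ h, ‖F s‖ ≤ Real.exp (C₀ * lam)) →
    (∀ s ∈ Bx σ₁ t₀ h, 3 ≤ s.re → ‖F s - 1‖ ≤ B * (2 : ℝ) ^ (-s.re)) →
    (∀ S : Finset ℂ, (∀ ρ ∈ S, ρ ∈ Bx σ₁ t₀ h ∧ F ρ = a) →
      ∑ ρ ∈ S, (analyticOrderNatAt (fun s => F s - a) ρ : ℝ) ≤ ε * lam) →
    ∀ s : ℂ, (σ₁ + 1) / 2 ≤ s.re → s.re ≤ 3 → |s.im - t₀| ≤ h / 2 → ‖F s‖ ≤ Real.exp (c₃ * lam)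

private theorem FPtU_eq (s₁ t₀ h : ℝ) : Bx s₁ t₀ h =
    {s : ℂ | s₁ < s.re} ∩ ({s : ℂ | t₀ - h < s.im} ∩ {s : ℂ | s.im < t₀ + h}) := by
  ext s
  simp only [Bx, Set.mem_setOf_eq, Set.mem_inter_iff, abs_lt]
  constructor
  · rintro ⟨h1, h2, h3⟩
    exact ⟨h1, by linarith, by linarith⟩
  · rintro ⟨h1, h2, h3⟩
    exact ⟨h1, by linarith, by linarith⟩

private theorem FPtU_open (s₁ t₀ h : ℝ) : IsOpen (Bx s₁ t₀ h) := by
  rw [FPtU_eq]
  refine IsOpen.inter ?_ (IsOpen.inter ?_ ?_)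
  · exact isOpen_lt continuous_const Complex.continuous_re
  · exact isOpen_lt continuous_const Complex.continuous_im
  · exact isOpen_lt Complex.continuous_im continuous_const

private theorem FPtU_conn (s₁ t₀ h : ℝ) : IsPreconnected (Bx s₁ t₀ h) := by
  rw [FPtU_eq]
  refine Convex.isPreconnected ?_
  refine Convex.inter ?_ (Convex.inter ?_ ?_)
  · exact convex_halfSpace_re_gt s₁
  · exact convex_halfSpace_im_gt (t₀ - h)
  · exact convex_halfSpace_im_lt (t₀ + h)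

private theorem FPtU_ord (U : Set ℂ) (f : ℂ → ℂ) (hU : IsOpen U) (hc : IsPreconnected U)
    (hf : DifferentiableOn ℂ f U) (hne : ∃ s ∈ U, f s ≠ 0) (z : ℂ) (hz : z ∈ U) (h0 : f z = 0) :
    1 ≤ analyticOrderNatAt f z := by
  have han : AnalyticOnNhd ℂ f U := hf.analyticOnNhd hU
  have h1 : analyticOrderAt f z ≠ 0 := by
    intro h
    exact ((han z hz).analyticOrderAt_eq_zero.1 h) h0
  have h2 : analyticOrderAt f z ≠ ⊤ := by
    intro h
    rw [analyticOrderAt_eq_top] at h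
    have h3 := han.eqOn_zero_of_preconnected_of_eventuallyEq_zero hc hz h
    obtain ⟨s, hs, hs0⟩ := hne
    exact hs0 (h3 hs)
  have h3 : analyticOrderNatAt f z ≠ 0 := by
    unfold analyticOrderNatAt
    intro h
    rcases ENat.toNat_eq_zero.1 h with h | h
    · exact h1 h
    · exact h2 h
  omega

theorem rFPtU (h1 : S_Few) (h2 : S_Fct) : S_FPtU := by
  intro σ₁ h C₀ B κ hσ hh hC₀ hB hκ c₃ hc₃
  obtain ⟨n, hn⟩ := exists_pow_lt_of_lt_one (show 0 < κ / (2 * B) by positivity)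
    (show (1 / 2 : ℝ) < 1 by norm_num)
  obtain ⟨T, hT⟩ : ∃ T : ℝ, T = n + 7 / 2 := ⟨_, rfl⟩
  have hn0 : (0 : ℝ) ≤ n := Nat.cast_nonneg n
  have hT3 : 7 / 2 ≤ T := by linarith
  have hpow : ∀ x : ℝ, T - 1 / 2 ≤ x → B * (2 : ℝ) ^ (-x) ≤ κ / 2 := by
    intro x hx
    have e1 : (2 : ℝ) ^ (-x) ≤ (1 / 2 : ℝ) ^ n := by
      have e2 : (2 : ℝ) ^ (-x) ≤ (2 : ℝ) ^ (-(n : ℝ)) :=
        Real.rpow_le_rpow_of_exponent_le (by norm_num) (by linarith)
      rw [Real.rpow_neg (by norm_num : (0 : ℝ) ≤ 2) (n : ℝ), Real.rpow_natCast] at e2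
      rw [one_div, inv_pow]
      exact e2
    have e3 : B * (2 : ℝ) ^ (-x) ≤ B * (κ / (2 * B)) :=
      mul_le_mul_of_nonneg_left (le_trans e1 hn.le) hB.le
    have e4 : B * (κ / (2 * B)) = κ / 2 := by
      field_simp
    linarith
  obtain ⟨ε, lam₀, hε, hlam₀, hF⟩ := h1 h σ₁ ((σ₁ + 1) / 2) T (C₀ + 1)
    (Real.log 2) (c₃ / 2) hh (by linarith) (by linarith) (by linarith)
  refine ⟨ε, max lam₀ (max (2 / κ) (8 / c₃)), hε, ?_⟩
  intro lam t₀ F a hlam hδ' hasz hdF hbF hFB hS s hs1 hs2 hs3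
  have hδ : 0 < ‖1 - a‖ := lt_of_lt_of_le hκ hδ'
  have h1a : (1 - a : ℂ) ≠ 0 := norm_pos_iff.1 hδ
  have hl1 : lam₀ ≤ lam := le_trans (le_max_left _ _) hlam
  have hl2 : 2 / κ ≤ lam := le_trans (le_trans (le_max_left _ _) (le_max_right _ _)) hlam
  have hl3 : 8 / c₃ ≤ lam := le_trans (le_trans (le_max_right _ _) (le_max_right _ _)) hlam
  have hlam1 : 1 ≤ lam := le_trans hlam₀ hl1
  have hbig : ∀ z ∈ Bx σ₁ t₀ h, T - 1 / 2 ≤ z.re →
      ‖1 - a‖ / 2 ≤ ‖F z - a‖ ∧ ‖F z - a‖ ≤ 3 * ‖1 - a‖ / 2 := by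
    intro z hz hzT
    have e1 : ‖F z - 1‖ ≤ κ / 2 := le_trans (hFB z hz (by linarith)) (hpow z.re hzT)
    have e2 : ‖1 - a‖ ≤ ‖F z - a‖ + ‖F z - 1‖ := by
      have : (1 - a : ℂ) = (F z - a) - (F z - 1) := by ring
      rw [this]
      exact norm_sub_le _ _
    have e3 : ‖F z - a‖ ≤ ‖F z - 1‖ + ‖1 - a‖ := by
      have : (F z - a : ℂ) = (F z - 1) + (1 - a) := by ring
      rw [this]
      exact norm_add_le _ _
    constructor <;> linarith
  have hop := FPtU_open σ₁ t₀ h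
  have hco := FPtU_conn σ₁ t₀ h
  have hd1 : DifferentiableOn ℂ (fun z => F z - a) (Bx σ₁ t₀ h) := hdF.sub_const a
  have hne : ∃ z ∈ Bx σ₁ t₀ h, (fun z => F z - a) z ≠ 0 := by
    have hz : (⟨T, t₀⟩ : ℂ) ∈ Bx σ₁ t₀ h := by
      refine ⟨?_, ?_⟩
      · show σ₁ < T
        linarith
      · show |t₀ - t₀| < h
        rw [sub_self, abs_zero]
        exact hh
    refine ⟨⟨T, t₀⟩, hz, ?_⟩
    intro h0
    have e1 := (hbig _ hz (by show T - 1 / 2 ≤ T; linarith)).1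
    have e2 : ‖F ⟨T, t₀⟩ - a‖ = 0 := by
      have : F ⟨T, t₀⟩ - a = 0 := h0
      rw [this, norm_zero]
    linarith
  have hfin : {z : ℂ | z ∈ Bx σ₁ t₀ h ∧ F z - a = 0}.Finite := by
    by_contra hinf
    obtain ⟨S, hS1, hS2⟩ := Set.Infinite.exists_subset_card_eq hinf (⌊ε * lam⌋₊ + 1)
    have e1 := hS S (fun ρ hρ => ⟨(hS1 hρ).1, sub_eq_zero.1 (hS1 hρ).2⟩)
    have e2 : (S.card : ℝ) ≤ ∑ ρ ∈ S, (analyticOrderNatAt (fun s => F s - a) ρ : ℝ) := by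
      rw [Finset.card_eq_sum_ones, Nat.cast_sum]
      refine Finset.sum_le_sum (fun ρ hρ => ?_)
      have := FPtU_ord (Bx σ₁ t₀ h) (fun z => F z - a) hop hco hd1 hne ρ (hS1 hρ).1 (hS1 hρ).2
      exact_mod_cast this
    rw [hS2] at e2
    have e3 := Nat.lt_floor_add_one (ε * lam)
    push_cast at e2
    linarith
  obtain ⟨ρ, G, hρ, hG, hG0, hFG⟩ := h2 (Bx σ₁ t₀ h) (fun z => F z - a) hfin.toFinset hop hco hd1
    hne (fun z => by rw [Set.Finite.mem_toFinset]; rfl)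
  have hρ2 : ∀ j, ρ j ∈ Bx σ₁ t₀ h ∧ F (ρ j) - a = 0 := by
    intro j
    have := hρ j
    rw [Set.Finite.mem_toFinset] at this
    exact this
  have key := hF lam hl1 t₀ _ ρ (fun z => (F z - a) / (1 - a)) (fun z => G z / (1 - a)) ?_
    (hG.div_const _) (fun z hz => div_ne_zero (hG0 z hz) h1a)
    (fun z hz => by
      have e : F z - a = G z * ∏ j, (z - ρ j) := hFG z hz
      rw [e]
      ring) ?_ ?_ ?_ s hs1 (by linarith) hs3
  · have e1 : ‖F s‖ ≤ ‖F s - a‖ + ‖a‖ := by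
      have : F s = (F s - a) + a := by ring
      calc ‖F s‖ = ‖(F s - a) + a‖ := by rw [← this]
        _ ≤ _ := norm_add_le _ _
    have e2 : ‖F s - a‖ ≤ ‖1 - a‖ * Real.exp (c₃ / 2 * lam) := by
      have e : ‖(F s - a) / (1 - a)‖ ≤ Real.exp (c₃ / 2 * lam) := key
      rw [norm_div, div_le_iff₀ hδ] at e
      linarith
    have e3 : ‖1 - a‖ ≤ 1 + ‖a‖ := by
      have := norm_sub_le (1 : ℂ) a
      rw [norm_one] at this
      exact this
    obtain ⟨x, hx⟩ : ∃ x : ℝ, x = Real.exp (c₃ / 4 * lam) := ⟨_, rfl⟩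
    have e4 : Real.exp (c₃ / 2 * lam) = x ^ 2 := by
      rw [hx, ← Real.exp_nat_mul]
      congr 1
      push_cast
      ring
    have e5 : Real.exp (c₃ * lam) = x ^ 4 := by
      rw [hx, ← Real.exp_nat_mul]
      congr 1
      push_cast
      ring
    have e6 : 3 ≤ x := by
      have e7 := Real.add_one_le_exp (c₃ / 4 * lam)
      have e8 : 8 ≤ lam * c₃ := (div_le_iff₀ hc₃).1 hl3
      rw [hx]
      linarith
    rw [← hx] at hasz
    rw [e4] at e2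
    rw [e5]
    have e9 : ‖1 - a‖ * x ^ 2 ≤ (1 + x) * x ^ 2 :=
      mul_le_mul_of_nonneg_right (by linarith) (by positivity)
    have e10 : (1 + x) * x ^ 2 + x ≤ x ^ 4 := by
      nlinarith [pow_pos (show (0 : ℝ) < x by linarith) 3, pow_pos (show (0 : ℝ) < x by linarith) 2,
        mul_nonneg (show (0 : ℝ) ≤ x - 3 by linarith) (pow_pos (show (0 : ℝ) < x by linarith) 3).le,
        mul_nonneg (show (0 : ℝ) ≤ x - 3 by linarith) (pow_pos (show (0 : ℝ) < x by linarith) 2).le]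
    linarith
  · have e1 := hS hfin.toFinset (fun z hz => by
      rw [Set.Finite.mem_toFinset] at hz
      exact ⟨hz.1, sub_eq_zero.1 hz.2⟩)
    rw [Nat.cast_sum]
    exact e1
  · intro j
    refine ⟨(hρ2 j).1, ?_⟩
    by_contra hlt
    push Not at hlt
    have e1 := (hbig _ (hρ2 j).1 hlt.le).1
    rw [(hρ2 j).2, norm_zero] at e1
    linarith
  · intro z hz
    show ‖(F z - a) / (1 - a)‖ ≤ Real.exp ((C₀ + 1) * lam)
    rw [norm_div, div_le_iff₀ hδ]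
    have e1 : ‖F z - a‖ ≤ ‖F z‖ + ‖a‖ := norm_sub_le _ _
    have e2 := hbF z hz
    have e3 : Real.exp ((C₀ + 1) * lam) = Real.exp (C₀ * lam) * Real.exp lam := by
      rw [← Real.exp_add]
      congr 1
      ring
    have e4 : ‖a‖ ≤ 1 + ‖1 - a‖ := by
      have : a = 1 - (1 - a) := by ring
      calc ‖a‖ = ‖1 - (1 - a)‖ := by rw [← this]
        _ ≤ ‖(1 : ℂ)‖ + ‖1 - a‖ := norm_sub_le _ _
        _ = _ := by rw [norm_one]
    have e5 : lam + 1 ≤ Real.exp lam := Real.add_one_le_exp _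
    have e6 : 0 ≤ C₀ * lam := by positivity
    have e7 : 1 ≤ Real.exp (C₀ * lam) := Real.one_le_exp e6
    have e8 : 2 ≤ lam * κ := (div_le_iff₀ hκ).1 hl2
    obtain ⟨X, hX⟩ : ∃ X : ℝ, X = Real.exp (C₀ * lam) := ⟨_, rfl⟩
    obtain ⟨d, hd⟩ : ∃ d : ℝ, d = ‖1 - a‖ := ⟨_, rfl⟩
    rw [← hX] at e2 e3 e7
    rw [← hd] at e4 hδ' ⊢
    have e9 : 2 ≤ lam * d := by
      have : lam * κ ≤ lam * d := mul_le_mul_of_nonneg_left hδ' (by linarith)
      linarith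
    have hd0 : 0 < d := by linarith
    have e10 : X * (lam + 1) * d ≤ X * Real.exp lam * d := by
      have : X * (lam + 1) ≤ X * Real.exp lam := mul_le_mul_of_nonneg_left e5 (by linarith)
      exact mul_le_mul_of_nonneg_right this hd0.le
    rw [e3]
    have e11 : X * 2 ≤ X * (lam * d) := mul_le_mul_of_nonneg_left e9 (by linarith)
    have e12 : 1 * d ≤ X * d := mul_le_mul_of_nonneg_right e7 hd0.le
    have e13 : X * (lam + 1) * d = X * (lam * d) + X * d := by ring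
    linarith
  · intro z hz hzT
    obtain ⟨e1, e2⟩ := hbig z hz (by linarith)
    have e0 : ‖(F z - a) / (1 - a)‖ = ‖F z - a‖ / ‖1 - a‖ := norm_div _ _
    have e1' : (1 / 2 : ℝ) ≤ ‖F z - a‖ / ‖1 - a‖ := by
      rw [le_div_iff₀ hδ]
      linarith
    have e2' : ‖F z - a‖ / ‖1 - a‖ ≤ 2 := by
      rw [div_le_iff₀ hδ]
      linarith
    show |Real.log ‖(F z - a) / (1 - a)‖| ≤ _
    rw [e0, abs_le]
    constructor
    · have e3 : Real.log (1 / 2) ≤ Real.log (‖F z - a‖ / ‖1 - a‖) :=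
        Real.log_le_log (by norm_num) e1'
      rw [one_div, Real.log_inv] at e3
      exact e3
    · exact Real.log_le_log (by linarith) e2'

end MP7ed9c3.Few
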