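import Pool.Agent.Lib.MP_7ed9c3_nt.Zs.LogBall

/-!
# MP_7ed9c3_nt, project PZ, Step 1 (architect helper45): few zeros imply that the function is small

`F` is holomorphic and at most `exp (C₀ λ)` in a half strip `s₁ < Re s`, `|Im s - t₀| < h`, `|log |F|| ≤ C₁` for `Re s ≥ 2`, and `F` has at most `ε λ` zeros.
Then `|F| ≤ exp (c₃ λ)` for `s₂ ≤ Re s ≤ 3`, `|Im s - t₀| ≤ h/2`, with `c₃` as small as we like. Only discs are used, no contour.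

RULES. Module X: file Pool/Agent/Lib/MP_7ed9c3_nt/Few/X.lean, import Pool.Agent.Lib.MP_7ed9c3_nt.Few.Spec, set_option autoImplicit false, namespace MP7ed9c3.Few,
`open Metric Complex`, final theorem `theorem rX (h1 : S_A) ... : S_X` (the statements under Uses, in this order, are the hypotheses). Auxiliary lemmas private, names X_.
Every statement is a separate module; the complete proof is in the docstring.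
-/

set_option autoImplicit false

namespace MP7ed9c3.Few

open Metric

/-- **Dsk** (dividing out the zeros on a disc). Uses: nothing.
Proof. `δ = R₂ - R₁ > 0`, `R₃ = R₁ + δ/2`, `r = R₁ + 3δ/4`. `I = univ.filter (fun j => dist (ρ j) w ≤ R₃)`; `H s = G s * ∏ j ∈ Iᶜ, (s - ρ j)` is holomorphic on `ball w R₂` and `F s = H s * ∏ j ∈ I, (s - ρ j)` (Finset.prod_mul_prod_compl). On the sphere
`dist s w = r`: `‖s - ρ j‖ ≥ r - R₃ = δ/4` for `j ∈ I`, so `‖H s‖ ≤ exp A * (4/δ)^(card I)`. Maximum principle (Complex.norm_le_of_forall_mem_frontier_norm_le on `ball w r`, frontier = sphere; `DiffContOnCl`: H is differentiable on the larger ball): the same for `s ∈ closedBall w R₁`.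
There `‖s - ρ j‖ ≥ R₃ - R₁ = δ/2 ≥ δ/4` for `j ∉ I`, so `‖G s‖ * (δ/4)^(card Iᶜ) ≤ ‖H s‖`; `card I + card Iᶜ = N`. -/
def S_Dsk : Prop := ∀ (w : ℂ) (R₁ R₂ A : ℝ) (N : ℕ) (ρ : Fin N → ℂ) (F G : ℂ → ℂ), 0 < R₁ → R₁ < R₂ →
  DifferentiableOn ℂ G (ball w R₂) → (∀ s ∈ ball w R₂, F s = G s * ∏ j, (s - ρ j)) →
  (∀ s ∈ ball w R₂, ‖F s‖ ≤ Real.exp A) → ∀ s ∈ closedBall w R₁, ‖G s‖ ≤ Real.exp A * (4 / (R₂ - R₁)) ^ N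

/-- **Thr** (Hadamard's three circles theorem). Uses: nothing.
Proof. `f z = g (w + exp z)` on the strip `log r₀ ≤ Re z ≤ log r₂`: `|exp z| = exp (Re z)`. Complex.HadamardThreeLines.norm_le_interp_of_mem_verticalClosedStrip' (`l = log r₀`, `u = log r₂`; DiffContOnCl because `f` is differentiable at all points of the closed strip (`g` is differentiable on the open
ball of radius `r₃ > r₂`), bounded because `g` is bounded on the compact ball `closedBall w r₂`). For `r₀ ≤ dist s w ≤ r₁`: `s = w + exp z`, `z = Complex.log (s - w)`, `Re z = log (dist s w)`: `‖g s‖ ≤ a^(1-θ') b^θ'` with `θ' = (log (dist s w) - log r₀)/(log r₂ - log r₀) ≤ θ`, and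
`a^(1-θ') b^θ' = a (b/a)^θ' ≤ a (b/a)^θ` (`b/a ≥ 1`). For `dist s w < r₀`: maximum principle, `‖g s‖ ≤ a ≤ a (b/a)^θ`. -/
def S_Thr : Prop := ∀ (w : ℂ) (r₀ r₁ r₂ r₃ a b : ℝ) (g : ℂ → ℂ), 0 < r₀ → r₀ < r₁ → r₁ < r₂ → r₂ < r₃ → 0 < a → a ≤ b →
  DifferentiableOn ℂ g (ball w r₃) → (∀ s ∈ closedBall w r₀, ‖g s‖ ≤ a) → (∀ s ∈ closedBall w r₂, ‖g s‖ ≤ b) →
  ∀ s ∈ closedBall w r₁, ‖g s‖ ≤ a * (b / a) ^ ((Real.log r₁ - Real.log r₀) / (Real.log r₂ - Real.log r₀))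

/-- **Stp** (one step: propagation of smallness of `log |G|`). Uses: S_Thr.
Proof. `r₀ = r/2`, `r₁ = r'`, `r₂ = (r' + R)/2`, `r₃ = R`, `θ = (log r₁ - log r₀)/(log r₂ - log r₀) ∈ (0, 1)`, `ω = 1 - θ`, `C₂ = 2 (1 + D) (R + r₂)/(R - r₂) + D` (any constant `≥` the ones below), `C = C₂ + 5 + D`-like, only depending on `r, r', R, D`.
`g` with `exp (g z) = G z` on `ball w R` (Zs.logballz_exists), `g₁ z = g z - i Im (g w)`: `Re (g₁ z) = log ‖G z‖` (`‖exp (g z)‖ = exp (Re (g z))`), `g₁ w` real, `‖g₁ w‖ = |log ‖G w‖| ≤ B`. Borel-Caratheodory (Complex.borelCaratheodory, applied to `z ↦ g₁ (w + z)` on `ball 0 R`,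
`Re ≤ A'`, `A' = A` if `A > 0`; note `0 < B ≤ D A` gives `A > 0`, `D > 0`): on `closedBall w r₂`: `‖g₁ s‖ ≤ 2 A r₂/(R - r₂) + B (R + r₂)/(R - r₂) ≤ C₂ A` (`B ≤ D A`). The same on `ball 0 r` with `Re ≤ B`: on `closedBall w (r/2)`: `‖g₁ s‖ ≤ 2 B + 3 B = 5 B`.
S_Thr with `a = 5 B`, `b = max (C₂ A) (5 B) ≤ (C₂ + 5 D) A`: `‖g₁ s‖ ≤ 5 B (b/(5B))^θ ≤ 5 (C₂ + 5D + 1) B (A/B)^θ = C A (B/A)^(1-θ)`. `|log ‖G s‖| = |Re (g₁ s)| ≤ ‖g₁ s‖`. -/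
def S_Stp : Prop := ∀ r r' R D : ℝ, 0 < r → r < r' → r' < R → 0 < D → ∃ C ω : ℝ, 1 ≤ C ∧ 0 < ω ∧ ω ≤ 1 ∧
  ∀ (w : ℂ) (G : ℂ → ℂ) (A B : ℝ), 0 < B → B ≤ D * A → DifferentiableOn ℂ G (ball w R) → (∀ s ∈ ball w R, G s ≠ 0) →
  (∀ s ∈ ball w R, ‖G s‖ ≤ Real.exp A) → (∀ s ∈ ball w r, |Real.log ‖G s‖| ≤ B) →
  ∀ s ∈ ball w r', |Real.log ‖G s‖| ≤ C * A * (B / A) ^ ω

/-- **Chn** (a chain of discs). Uses: S_Stp.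
Proof. Induction on `K`. `K = 0`: `C = 1`, `ω = 1`: `A * (B/A) = B`. Step: `C, ω` for `K`; `C', ω'` from S_Stp for `r = R/4`, `r' = R/2`, `D = C`. For `i ≤ K` the bound is that of `K`. Let `B' = C A (B/A)^ω > 0`; `B' ≤ C A` (`B ≤ A`). On `ball (w - K R/8) (R/4)`: `|log ‖G‖| ≤ B'`, so S_Stp at `w - K R/8`:
on `ball (w - K R/8) (R/2)`, which contains `ball (w - (K+1) R/8) (R/4)`, `|log ‖G‖| ≤ C' A (B'/A)^ω' = C' C^ω' A (B/A)^(ω ω')`. New constants: `max C (C' C^ω')`, `ω ω'` (`(B/A)^ω ≤ (B/A)^(ω ω')` because `B/A ≤ 1`). -/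
def S_Chn : Prop := ∀ (R : ℝ) (K : ℕ), 0 < R → ∃ C ω : ℝ, 1 ≤ C ∧ 0 < ω ∧ ω ≤ 1 ∧ ∀ (w : ℂ) (G : ℂ → ℂ) (A B : ℝ), 0 < B → B ≤ A →
  (∀ i ≤ K, DifferentiableOn ℂ G (ball (w - (i * (R / 8) : ℝ)) R) ∧ ∀ s ∈ ball (w - (i * (R / 8) : ℝ)) R, G s ≠ 0 ∧ ‖G s‖ ≤ Real.exp A) →
  (∀ s ∈ ball w (R / 4), |Real.log ‖G s‖| ≤ B) →
  ∀ i ≤ K, ∀ s ∈ ball (w - (i * (R / 8) : ℝ)) (R / 4), |Real.log ‖G s‖| ≤ C * A * (B / A) ^ ω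

/-- the half strip -/
def Bx (s₁ t₀ h : ℝ) : Set ℂ := {s : ℂ | s₁ < s.re ∧ |s.im - t₀| < h}

/-- **Few** (THE THEOREM of Step 1). Uses: S_Dsk, S_Chn.
Proof. `R = min (h/5) (min ((s₂ - s₁)/4) 1)`, `K = ⌈8 (T + R - s₂)/R⌉₊`, `C, ω` from S_Chn for `R`, `K`. `D₀ = log (max 2 (2 + |T| + |s₁| + 2h)) ≥ log 2 > 0`, so `|log ‖s - ρ j‖| ≤ D₀` for `s ∈ Bx`, `T ≤ Re s ≤ T + 2R` (`‖s - ρ j‖ ≥ Re s - (T - 1/2) ≥ 1/2`,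
`‖s - ρ j‖ ≤ |Re s - Re ρ j| + |Im s - Im ρ j| ≤ (T + 2R - s₁) + 2h`), and `log ‖s - ρ j‖ ≤ D₀` for `s ∈ Bx`, `Re s ≤ T` (if `s = ρ j` the value of Real.log is `0`; better use `‖s - ρ j‖ ≤ exp D₀`). Let `N ≤ ε λ`. `A = (|C₀| + 1) λ + |C₁| + 1`. On the balls of radius `R` around `w_i`,
`w_i = T + R + i y - i R/8` (`y = Im s`, `|y - t₀| ≤ h/2`; `Re w_i ≥ s₂ - R/8` for `i ≤ K`; the balls of radius `2R` around `w_i` are in `Bx`: `Re > s₂ - R/8 - 2R ≥ s₁`, `h/2 + 2R < h`), S_Dsk with `R₁ = R`, `R₂ = 2R`: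
`‖G‖ ≤ exp (|C₀| λ) (4/R)^N ≤ exp A` if `ε log (4/R) ≤ 1` (`4/R ≥ 4`). On `ball w_0 (R/4)` (`T ≤ Re ≤ T + 2R`): `|log ‖G‖| ≤ |log ‖F‖| + ∑ |log ‖s - ρ j‖| ≤ |C₁| + D₀ N`; `B = |C₁| + 1 + D₀ ε λ ≤ A` for `ε D₀ ≤ 1`. S_Chn: for `s ∈ ball w_i (R/4)`: `log ‖G s‖ ≤ C A (B/A)^ω`. Since `A ≥ λ` and `A ≤ A₀ λ`
(`A₀ = |C₀| + |C₁| + 2`, `λ ≥ 1`), `B/A ≤ (|C₁| + 1)/λ + D₀ ε =: η₀`, small; `‖F s‖ = ‖G s‖ ∏ ‖s - ρ j‖ ≤ exp (C A₀ λ η₀^ω + D₀ ε λ) ≤ exp (c₃ λ)` for `ε` small and `λ ≥ λ₀` large. Choice of `i` for `s` with `s₂ ≤ Re s ≤ T`: `i = ⌊8 (T + R - Re s)/R⌋₊ ≤ K`, `|s - w_i| ≤ R/8 < R/4`. -/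
def S_Few : Prop := ∀ h s₁ s₂ T C₀ C₁ c₃ : ℝ, 0 < h → s₁ < s₂ → s₂ ≤ T → 0 < c₃ → ∃ ε lam₀ : ℝ, 0 < ε ∧ 1 ≤ lam₀ ∧
  ∀ lam : ℝ, lam₀ ≤ lam → ∀ (t₀ : ℝ) (N : ℕ) (ρ : Fin N → ℂ) (F G : ℂ → ℂ), (N : ℝ) ≤ ε * lam →
  DifferentiableOn ℂ G (Bx s₁ t₀ h) → (∀ s ∈ Bx s₁ t₀ h, G s ≠ 0) → (∀ s ∈ Bx s₁ t₀ h, F s = G s * ∏ j, (s - ρ j)) →
  (∀ j, ρ j ∈ Bx s₁ t₀ h ∧ (ρ j).re ≤ T - 1 / 2) → (∀ s ∈ Bx s₁ t₀ h, ‖F s‖ ≤ Real.exp (C₀ * lam)) →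
  (∀ s ∈ Bx s₁ t₀ h, T ≤ s.re → |Real.log ‖F s‖| ≤ C₁) →
  ∀ s : ℂ, s₂ ≤ s.re → s.re ≤ T → |s.im - t₀| ≤ h / 2 → ‖F s‖ ≤ Real.exp (c₃ * lam)

/-- **Fct** (dividing out the zeros). Uses: nothing. MODEL: Zr/Factor.lean (factor_one, factor_many).
Proof. Induction over the finite set `Z` as in Zr/Factor.lean, for functions holomorphic on the open preconnected set `U` which are not identically `0` on `U`: for `z ∈ U` the order `m` at `z` is finite (identity theorem, AnalyticOnNhd.eqOn_zero_of_preconnected_of_eventuallyEq_zero), `f s = (s - z)^m f₁ s` with `f₁` holomorphic on `U`,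
`f₁ z ≠ 0`, `f₁` has the same zeros with the same orders elsewhere. List the zeros with multiplicity: `N = ∑ z ∈ Z, analyticOrderNatAt F z`, `ρ : Fin N → ℂ` (by induction: Fin (N + m), Fin.append, Fin.prod_univ_add, or through a multiset / list `L` with `ρ j = L.get j`). -/
def S_Fct : Prop := ∀ (U : Set ℂ) (F : ℂ → ℂ) (Z : Finset ℂ), IsOpen U → IsPreconnected U → DifferentiableOn ℂ F U → (∃ s ∈ U, F s ≠ 0) →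
  (∀ z, z ∈ Z ↔ z ∈ U ∧ F z = 0) → ∃ (ρ : Fin (∑ z ∈ Z, analyticOrderNatAt F z) → ℂ) (G : ℂ → ℂ), (∀ j, ρ j ∈ Z) ∧ DifferentiableOn ℂ G U ∧
    (∀ s ∈ U, G s ≠ 0) ∧ ∀ s ∈ U, F s = G s * ∏ j, (s - ρ j)

/-- **FPt** (few `a`-points imply that the function is small; this is S_FewPoints of Pz/Def.lean). Uses: S_Few, S_Fct.
Proof. `Bx σ₁ t₀ h` is the box of Pz. `T ≥ 3` large (in terms of `a`, `B`, `σ₁`): `B 2^(-(T - 1/2)) ≤ |1 - a|/2`, so for `Re s ≥ T - 1/2`: `|1-a|/2 ≤ ‖F s - a‖ ≤ 2 |1-a|`-like bounds, no `a`-points there, `|log ‖F s - a‖| ≤ C₁`. `F₁ = F - a`, `‖F₁‖ ≤ exp ((C₀ + 1) λ)` for `λ ≥ 1 + |a|`-like.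
The set of the zeros of `F₁` in `Bx` is finite: every zero has order `≥ 1` (`F₁` is not identically `0` on the preconnected set `Bx`, so the orders are finite), so every finite set `S` of zeros has `card S ≤ ε λ`; a set all of whose finite subsets have at most `n` elements is finite. `Z` = this set, `N = ∑ order ≤ ε λ`. S_Fct with `U = Bx` (open, convex), S_Few
with `s₂ = (σ₁ + 1)/2 > σ₁` and `c₃/2`: `‖F s‖ ≤ exp (c₃ λ/2) + |a| ≤ exp (c₃ λ)` for `λ` large and `(σ₁+1)/2 ≤ Re s ≤ T`, `T ≥ 3`. -/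
def S_FPt : Prop :=
  ∀ (σ₁ h C₀ B : ℝ) (a : ℂ), σ₁ < 1 → 0 < h → 0 < C₀ → 0 < B → a ≠ 1 → ∀ c₃ : ℝ, 0 < c₃ →
  ∃ ε lam₀ : ℝ, 0 < ε ∧ ∀ (lam t₀ : ℝ) (F : ℂ → ℂ), lam₀ ≤ lam →
    DifferentiableOn ℂ F (Bx σ₁ t₀ h) → (∀ s ∈ Bx σ₁ t₀ h, ‖F s‖ ≤ Real.exp (C₀ * lam)) →
    (∀ s ∈ Bx σ₁ t₀ h, 3 ≤ s.re → ‖F s - 1‖ ≤ B * (2 : ℝ) ^ (-s.re)) →
    (∀ S : Finset ℂ, (∀ ρ ∈ S, ρ ∈ Bx σ₁ t₀ h ∧ F ρ = a) →
      ∑ ρ ∈ S, (analyticOrderNatAt (fun s => F s - a) ρ : ℝ) ≤ ε * lam) →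
    ∀ s : ℂ, (σ₁ + 1) / 2 ≤ s.re → s.re ≤ 3 → |s.im - t₀| ≤ h / 2 → ‖F s‖ ≤ Real.exp (c₃ * lam)

end MP7ed9c3.Few
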